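import Pool.Agent.W777.SA6

set_option autoImplicit false

open Set Filter
open scoped Topology

namespace Pool.Agent.W777.SA

theorem core {k : ℕ} (f : Fin k → MvPolynomial (Fin 2) ℝ)
    (g : Fin k → Finset (MvPolynomial (Fin 2) ℝ)) (V : Set (Fin 2 → ℝ))
    (hV : ∀ z, z ∈ V ↔ ∃ i, InP f g i z)
    (H3 : ∀ F : (Fin 2 → ℝ) → ℝ, ContDiff ℝ (4:ℕ) F → (∀ x ∈ E0, F x = 0) →
      ∃ G : (Fin 2 → ℝ) → ℝ, ContDiff ℝ (4:ℕ) G ∧ (∀ x ∈ V, G x = 0) ∧
        ∀ j : ℕ, j ≤ 4 → iteratedFDeriv ℝ j G 0 = iteratedFDeriv ℝ j F 0)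
    (H4 : ∀ G : (Fin 2 → ℝ) → ℝ, ContDiff ℝ (4:ℕ) G → (∀ x ∈ V, G x = 0) →
      ∃ F : (Fin 2 → ℝ) → ℝ, ContDiff ℝ (4:ℕ) F ∧ (∀ x ∈ E0, F x = 0) ∧
        ∀ j : ℕ, j ≤ 4 → iteratedFDeriv ℝ j F 0 = iteratedFDeriv ℝ j G 0) : False := by
  classical
  obtain ⟨G1, hG1c, hG1V, hG1j⟩ := H3 F1 F1_contDiff (fun z hz => hz.1)
  obtain ⟨G2, hG2c, hG2V, hG2j⟩ := H3 F2 F2_contDiff (fun z hz => hz.2)
  have hsmall := small_V hG2c hG2V hG2j
  obtain ⟨r, hr, hsingle⟩ := single_V hG1c hG1V hG1j hsmall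
  -- right side
  obtain ⟨ε₁, hε₁, h₁, h₁', a1, a2, a3, a4, a5, a6⟩ := side f g r hr
    (fun x y₁ y₂ i j hx0 hxr hy1 hy2 hp1 hp2 => hsingle x y₁ y₂ hx0.ne'
      (by rwa [abs_of_pos hx0]) hy1 hy2 ((hV _).2 ⟨i, hp1⟩) ((hV _).2 ⟨j, hp2⟩))
    (by
      intro c hc
      obtain ⟨δ, hδ, h⟩ := hsmall c hc
      refine ⟨δ, hδ, fun x y i hx0 hxδ hy hp => ?_⟩
      have := h ![x, y] ((hV _).2 ⟨i, hp⟩) (by
        rw [norm_vec, abs_of_pos hx0]; exact max_lt hxδ hy)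
      simpa using this)
  -- left side
  obtain ⟨ε₂, hε₂, h₂, h₂', b1, b2, b3, b4, b5, b6⟩ := side (fun i => refl (f i))
    (fun i => (g i).image refl) r hr
    (fun x y₁ y₂ i j hx0 hxr hy1 hy2 hp1 hp2 => by
      rw [InP_refl] at hp1 hp2
      exact hsingle (-x) y₁ y₂ (neg_ne_zero.2 hx0.ne')
        (by rwa [abs_neg, abs_of_pos hx0]) hy1 hy2 ((hV _).2 ⟨i, hp1⟩) ((hV _).2 ⟨j, hp2⟩))
    (by
      intro c hc
      obtain ⟨δ, hδ, h⟩ := hsmall c hc
      refine ⟨δ, hδ, fun x y i hx0 hxδ hy hp => ?_⟩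
      rw [InP_refl] at hp
      have := h ![-x, y] ((hV _).2 ⟨i, hp⟩) (by
        rw [norm_vec, abs_neg, abs_of_pos hx0]; exact max_lt hxδ hy)
      simpa using this)
  obtain ⟨δ₀, hδ₀, hs0⟩ := hsmall 1 one_pos
  set ε := min (min ε₁ ε₂) δ₀ with hε
  have hε0 : 0 < ε := lt_min (lt_min hε₁ hε₂) hδ₀
  have hεa : ε ≤ ε₁ := (min_le_left _ _).trans (min_le_left _ _)
  have hεb : ε ≤ ε₂ := (min_le_left _ _).trans (min_le_right _ _)
  have hεc : ε ≤ δ₀ := min_le_right _ _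
  -- the function `h`
  have hVh : ∀ z ∈ V, ‖z‖ < ε → z 0 ^ 2 * z 1 = h₁ (z 0) + h₂ (-(z 0)) := by
    intro z hz hzε
    have hz' : z = ![z 0, z 1] := by
      ext i
      fin_cases i <;> rfl
    have n0 := abs_le_norm0 z
    have n1 := abs_le_norm1 z
    obtain ⟨i, hi⟩ := (hV z).1 hz
    rcases lt_trichotomy (z 0) 0 with hneg | hzero | hpos
    · have h0 : |z 0| = -(z 0) := abs_of_neg hneg
      have hp : InP (fun i => refl (f i)) (fun i => (g i).image refl) i ![-(z 0), z 1] := by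
        rw [InP_refl, neg_neg, ← hz']
        exact hi
      have := b6 (-(z 0)) (z 1) i (by linarith) (by rw [← h0]; linarith) (by linarith) hp
      rw [a1 _ hneg.le, zero_add, ← this]
      ring
    · have := hs0 z hz (by linarith)
      rw [hzero] at this
      have hz1 : z 1 = 0 := by
        have h3 : |z 1| ≤ 0 := by simpa using this
        exact abs_nonpos_iff.1 h3
      rw [hzero, hz1, neg_zero, a1 0 le_rfl, b1 0 le_rfl]
      ring
    · have h0 : |z 0| = z 0 := abs_of_pos hpos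
      have hp : InP f g i ![z 0, z 1] := by
        rw [← hz']
        exact hi
      have := a6 (z 0) (z 1) i hpos (by rw [← h0]; linarith) (by linarith) hp
      rw [b1 _ (by linarith), add_zero, ← this]
  -- the cut-off
  let χ : ContDiffBump (0 : Fin 2 → ℝ) := ⟨ε / 4, ε / 2, by linarith, by linarith⟩
  set G3 : (Fin 2 → ℝ) → ℝ := fun z => χ z * (z 0 ^ 2 * z 1 - (h₁ (z 0) + h₂ (-(z 0)))) with hG3
  have hG3V : ∀ z ∈ V, G3 z = 0 := by
    intro z hz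
    by_cases hzε : ‖z‖ < ε
    · simp only [hG3]
      rw [hVh z hz hzε, sub_self, mul_zero]
    · have : χ z = 0 := by
        apply χ.zero_of_le_dist
        rw [dist_zero_right]
        show ε / 2 ≤ ‖z‖
        linarith [not_lt.1 hzε]
      simp only [hG3]
      rw [this, zero_mul]
  have hG3c : ContDiff ℝ (4:ℕ) G3 := by
    rw [contDiff_iff_contDiffAt]
    intro z
    by_cases hzε : ‖z‖ < ε
    · have n0 := abs_le_norm0 z
      have hz1 : z 0 < ε₁ := by linarith [le_abs_self (z 0)]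
      have hz2 : -(z 0) < ε₂ := by linarith [neg_le_abs (z 0)]
      have c1 : ContDiffAt ℝ (4:ℕ) h₁ (z 0) := by
        have := a3.contDiffAt (Iio_mem_nhds hz1)
        exact_mod_cast this
      have c2 : ContDiffAt ℝ (4:ℕ) h₂ (-(z 0)) := by
        have := b3.contDiffAt (Iio_mem_nhds hz2)
        exact_mod_cast this
      have p0 : ContDiffAt ℝ (4:ℕ) (fun z : Fin 2 → ℝ => z 0) z :=
        (contDiff_apply ℝ ℝ (0 : Fin 2)).contDiffAt
      have p1 : ContDiffAt ℝ (4:ℕ) (fun z : Fin 2 → ℝ => z 1) z :=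
        (contDiff_apply ℝ ℝ (1 : Fin 2)).contDiffAt
      have d1 : ContDiffAt ℝ (4:ℕ) (fun z : Fin 2 → ℝ => h₁ (z 0)) z := c1.comp z p0
      have d2 : ContDiffAt ℝ (4:ℕ) (fun z : Fin 2 → ℝ => h₂ (-(z 0))) z := c2.comp z p0.neg
      exact χ.contDiffAt.mul (((p0.pow 2).mul p1).sub (d1.add d2))
    · have hev : G3 =ᶠ[𝓝 z] fun _ => (0:ℝ) := by
        have h1 : ∀ᶠ z' in 𝓝 z, ε / 2 < ‖z'‖ := by
          apply continuous_norm.continuousAt.eventually
          exact lt_mem_nhds (by linarith [not_lt.1 hzε])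
        filter_upwards [h1] with z' hz'
        have : χ z' = 0 := by
          apply χ.zero_of_le_dist
          rw [dist_zero_right]
          exact hz'.le
        simp only [hG3]
        rw [this, zero_mul]
      exact contDiffAt_const.congr_of_eventuallyEq hev
  obtain ⟨F3, hF3c, hF3E, hF3j⟩ := H4 G3 hG3c hG3V
  obtain ⟨δ₃, hδ₃, hR⟩ := jet_small_fderiv 3 (F3 - G3) (hF3c.sub hG3c)
    (jets_sub hG3c hF3c hF3j) (1 / 16) (by norm_num)
  obtain ⟨δ₄, hδ₄, hh⟩ := a5 (1 / 16) (by norm_num)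
  set δ := min (min δ₃ δ₄) (min (ε / 4) 1) with hδ
  have hδ0 : 0 < δ := lt_min (lt_min hδ₃ hδ₄) (lt_min (by linarith) one_pos)
  obtain ⟨t, s, ht0, hts, hsδ, hwt, hws, hst⟩ := exists_pair δ hδ0
  have hs0' : 0 < s := by linarith
  have hsδ3 : s < δ₃ := lt_of_lt_of_le hsδ ((min_le_left _ _).trans (min_le_left _ _))
  have hsδ4 : s < δ₄ := lt_of_lt_of_le hsδ ((min_le_left _ _).trans (min_le_right _ _))
  have hsε : s < ε / 4 := lt_of_lt_of_le hsδ ((min_le_right _ _).trans (min_le_left _ _))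
  have hs1 : s < 1 := lt_of_lt_of_le hsδ ((min_le_right _ _).trans (min_le_right _ _))
  have hs3 : s ^ 3 ≤ s := by
    calc s ^ 3 ≤ s ^ 1 := pow_le_pow_of_le_one hs0'.le hs1.le (by norm_num)
      _ = s := pow_one s
  have hs32 : s ^ 3 ≤ 2 * s ^ 2 := by
    have : s ^ 3 ≤ s ^ 2 := pow_le_pow_of_le_one hs0'.le hs1.le (by norm_num)
    nlinarith [sq_nonneg s]
  have np1 : ‖(![t, 0] : Fin 2 → ℝ)‖ ≤ s := by
    rw [norm_vec, abs_of_pos ht0, abs_zero]
    exact max_le hts.le hs0'.le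
  have np2 : ‖(![s, s ^ 3] : Fin 2 → ℝ)‖ ≤ s := by
    rw [norm_vec, abs_of_pos hs0', abs_of_pos (pow_pos hs0' 3)]
    exact max_le le_rfl hs3
  have e1 : F3 ![t, 0] = 0 := hF3E _ (by
    constructor
    · simp [F1, hwt]
    · simp [F2, hwt])
  have e2 : F3 ![s, s ^ 3] = 0 := hF3E _ (by
    constructor
    · simp [F1, hws]; ring
    · simp [F2, hws]; ring)
  have hχ1 : χ ![t, 0] = 1 := χ.one_of_mem_closedBall (by
    rw [mem_closedBall_zero_iff]
    show _ ≤ ε / 4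
    linarith)
  have hχ2 : χ ![s, s ^ 3] = 1 := χ.one_of_mem_closedBall (by
    rw [mem_closedBall_zero_iff]
    show _ ≤ ε / 4
    linarith)
  have e3 : G3 ![t, 0] = - h₁ t := by
    simp only [hG3]
    rw [hχ1]
    simp [b1 (-t) (by linarith)]
  have e4 : G3 ![s, s ^ 3] = s ^ 5 - h₁ s := by
    simp only [hG3]
    rw [hχ2]
    simp [b1 (-s) (by linarith)]
    ring
  have hdiff : Differentiable ℝ (F3 - G3) := (hF3c.sub hG3c).differentiable (by norm_num)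
  have hmv := (convex_closedBall (0 : Fin 2 → ℝ) s).norm_image_sub_le_of_norm_fderiv_le (𝕜 := ℝ)
    (f := F3 - G3) (C := 1 / 16 * s ^ 3) (x := ![t, 0]) (y := ![s, s ^ 3]) (fun x _ => hdiff x)
    (fun x hx => by
      rw [mem_closedBall_zero_iff] at hx
      refine (hR x (lt_of_le_of_lt hx hsδ3)).trans ?_
      exact mul_le_mul_of_nonneg_left (pow_le_pow_left₀ (norm_nonneg _) hx _) (by norm_num))
    (by rwa [mem_closedBall_zero_iff]) (by rwa [mem_closedBall_zero_iff])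
  have hnsub : ‖(![s, s ^ 3] : Fin 2 → ℝ) - ![t, 0]‖ ≤ 2 * s ^ 2 := by
    have : (![s, s ^ 3] : Fin 2 → ℝ) - ![t, 0] = ![s - t, s ^ 3] := by
      ext i
      fin_cases i <;> simp
    rw [this, norm_vec, abs_of_pos (by linarith : 0 < s - t), abs_of_pos (pow_pos hs0' 3)]
    apply max_le _ hs32
    have : t ^ 2 ≤ s ^ 2 := pow_le_pow_left₀ ht0.le hts.le 2
    linarith
  have hmv2 : |(-s ^ 5 + h₁ s) - h₁ t| ≤ 1 / 16 * s ^ 3 * (2 * s ^ 2) := by
    have h5 : (F3 - G3) ![s, s ^ 3] - (F3 - G3) ![t, 0] = (-s ^ 5 + h₁ s) - h₁ t := by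
      rw [Pi.sub_apply, Pi.sub_apply, e1, e2, e3, e4]
      ring
    rw [← h5, ← Real.norm_eq_abs]
    refine hmv.trans (mul_le_mul_of_nonneg_left hnsub (by positivity))
  obtain ⟨ξ, hξ, hξe⟩ := exists_hasDerivAt_eq_slope h₁ h₁' hts
    (fun z hz => (a4 z (by linarith [hz.2])).continuousAt.continuousWithinAt)
    (fun z hz => a4 z (by linarith [hz.2]))
  have hξb := hh ξ (by linarith [hξ.1]) (by linarith [hξ.2])
  have hξ3 : ξ ^ 3 ≤ s ^ 3 := pow_le_pow_left₀ (by linarith [hξ.1]) hξ.2.le 3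
  have hmv3 : |h₁ s - h₁ t| ≤ 1 / 16 * s ^ 3 * (2 * s ^ 2) := by
    have h6 : h₁ s - h₁ t = h₁' ξ * (s - t) := by
      rw [hξe, div_mul_cancel₀]
      linarith
    rw [h6, abs_mul, abs_of_pos (by linarith : 0 < s - t)]
    have h7 : s - t ≤ 2 * s ^ 2 := by
      have : t ^ 2 ≤ s ^ 2 := pow_le_pow_left₀ ht0.le hts.le 2
      linarith
    have h8 : |h₁' ξ| ≤ 1 / 16 * s ^ 3 := by linarith
    exact mul_le_mul h8 h7 (by linarith) (by positivity)
  have h9 : s ^ 5 ≤ |(-s ^ 5 + h₁ s) - h₁ t| + |h₁ s - h₁ t| := by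
    have := abs_sub (h₁ s - h₁ t) ((-s ^ 5 + h₁ s) - h₁ t)
    have h10 : (h₁ s - h₁ t) - ((-s ^ 5 + h₁ s) - h₁ t) = s ^ 5 := by ring
    rw [h10] at this
    linarith [le_abs_self (s ^ 5)]
  have h11 : 0 < s ^ 5 := pow_pos hs0' 5
  nlinarith

end Pool.Agent.W777.SA
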