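import Mathlib

set_option autoImplicit false

open Polynomial
open scoped Polynomial.Bivariate Topology

namespace Pool.Agent.W777.SA

/-- translate a real polynomial in two variables into `ℝ[X][Y]`. -/
noncomputable def toBi (f : MvPolynomial (Fin 2) ℝ) : ℝ[X][Y] :=
  (Bivariate.equivMvPolynomial ℝ).symm f

lemma toBi_eval (f : MvPolynomial (Fin 2) ℝ) (z : Fin 2 → ℝ) :
    (toBi f).evalEval (z 0) (z 1) = MvPolynomial.eval z f := by
  have h : ((evalEvalRingHom (z 0) (z 1)).comp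
      ((Bivariate.equivMvPolynomial ℝ).symm.toAlgHom.toRingHom)) = MvPolynomial.eval z := by
    apply MvPolynomial.ringHom_ext
    · intro r
      simp
    · intro i
      fin_cases i <;> simp
  have := congrArg (fun g => g f) h
  simpa [toBi] using this

lemma toBi_ne_zero {f : MvPolynomial (Fin 2) ℝ} (hf : f ≠ 0) : toBi f ≠ 0 := by
  unfold toBi
  intro h
  apply hf
  exact (map_eq_zero_iff _ (Bivariate.equivMvPolynomial ℝ).symm.injective).1 h

lemma exists_eps_eval_ne_zero {c : ℝ[X]} (hc : c ≠ 0) :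
    ∃ ε > 0, ∀ x : ℝ, 0 < x → x < ε → c.eval x ≠ 0 := by
  have hcl : IsClosed ((c.roots.toFinset.erase 0 : Finset ℝ) : Set ℝ) :=
    (Finset.finite_toSet _).isClosed
  have hmem : (((c.roots.toFinset.erase 0 : Finset ℝ) : Set ℝ))ᶜ ∈ 𝓝 (0:ℝ) :=
    hcl.isOpen_compl.mem_nhds (by simp)
  obtain ⟨ε, hε, hball⟩ := Metric.mem_nhds_iff.1 hmem
  refine ⟨ε, hε, fun x hx0 hxε h => ?_⟩
  have hx : x ∈ Metric.ball (0:ℝ) ε := by
    simp [abs_of_pos hx0, hxε]
  have := hball hx
  apply this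
  simp [hx0.ne', hc, h]

/-- the coefficient field `ℝ(X)` -/
abbrev K := FractionRing ℝ[X]

/-- image of a bivariate polynomial in `K[Y]` -/
noncomputable def im (P : ℝ[X][Y]) : K[X] := P.map (algebraMap ℝ[X] K)

lemma im_mul (P Q : ℝ[X][Y]) : im (P * Q) = im P * im Q := by simp [im]
lemma im_add (P Q : ℝ[X][Y]) : im (P + Q) = im P + im Q := by simp [im]
lemma im_C (c : ℝ[X]) : im (C c) = C (algebraMap ℝ[X] K c) := by simp [im]

lemma im_injective : Function.Injective im := by
  intro a b h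
  exact Polynomial.map_injective _ (IsFractionRing.injective ℝ[X] K) h

lemma exists_clear (R : K[X]) : ∃ c : ℝ[X], c ≠ 0 ∧ ∃ R' : ℝ[X][Y],
    im R' = C (algebraMap ℝ[X] K c) * R := by
  obtain ⟨b, hb, h⟩ := IsLocalization.integerNormalization_spec (nonZeroDivisors ℝ[X]) R
  refine ⟨b, nonZeroDivisors.ne_zero hb, IsLocalization.integerNormalization (nonZeroDivisors ℝ[X]) R, ?_⟩
  unfold im
  rw [h, Algebra.smul_def]
  rfl

/-- `P` is good: its image in `K[Y]` is irreducible -/
def Good (P : ℝ[X][Y]) : Prop := Irreducible (im P)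

lemma coprime_eps {P Q : ℝ[X][Y]} (h : IsCoprime (im P) (im Q)) :
    ∃ ε > 0, ∀ x : ℝ, 0 < x → x < ε → ∀ y : ℝ, P.evalEval x y = 0 → Q.evalEval x y ≠ 0 := by
  obtain ⟨a, b, hab⟩ := h
  obtain ⟨c, hc, a', ha'⟩ := exists_clear a
  obtain ⟨d, hd, b', hb'⟩ := exists_clear b
  have key : C (c * d) = C d * a' * P + C c * b' * Q := by
    apply im_injective
    rw [im_add, im_mul, im_mul, im_mul, im_mul, ha', hb', im_C, im_C, im_C, map_mul, C_mul]
    calc _ = C (algebraMap ℝ[X] K c) * C (algebraMap ℝ[X] K d) * (a * im P + b * im Q) := by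
            rw [hab, mul_one]
      _ = _ := by ring
  obtain ⟨ε, hε, hne⟩ := exists_eps_eval_ne_zero (mul_ne_zero hc hd)
  refine ⟨ε, hε, fun x hx0 hxε y hP hQ => ?_⟩
  have h1 := congrArg (fun g => evalEval x y g) key
  simp only [evalEval_C, evalEval_add, evalEval_mul, hP, hQ, mul_zero, add_zero] at h1
  exact hne x hx0 hxε h1

/-- dichotomy -/
lemma dichotomy {P : ℝ[X][Y]} (hP : Good P) (Q : ℝ[X][Y]) :
    ∃ ε > 0, (∀ x : ℝ, 0 < x → x < ε → ∀ y : ℝ, P.evalEval x y = 0 → Q.evalEval x y = 0) ∨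
      (∀ x : ℝ, 0 < x → x < ε → ∀ y : ℝ, P.evalEval x y = 0 → Q.evalEval x y ≠ 0) := by
  by_cases h : im P ∣ im Q
  · obtain ⟨R, hR⟩ := h
    obtain ⟨c, hc, R', hR'⟩ := exists_clear R
    have key : C c * Q = P * R' := by
      apply im_injective
      rw [im_mul, im_mul, hR', im_C, hR]
      ring
    obtain ⟨ε, hε, hne⟩ := exists_eps_eval_ne_zero hc
    refine ⟨ε, hε, Or.inl fun x hx0 hxε y hPx => ?_⟩
    have h1 := congrArg (fun g => evalEval x y g) key
    simp only [evalEval_C, evalEval_mul, hPx, zero_mul] at h1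
    exact (mul_eq_zero.1 h1).resolve_left (hne x hx0 hxε)
  · have hcop : IsCoprime (im P) (im Q) := (Irreducible.coprime_iff_not_dvd hP).2 h
    obtain ⟨ε, hε, h2⟩ := coprime_eps hcop
    exact ⟨ε, hε, Or.inr h2⟩

lemma simple_root {P : ℝ[X][Y]} (hP : Good P) :
    ∃ ε > 0, ∀ x : ℝ, 0 < x → x < ε → ∀ y : ℝ, P.evalEval x y = 0 →
      (derivative P).evalEval x y ≠ 0 := by
  apply coprime_eps
  have h1 : (im P).Separable := Irreducible.separable hP
  unfold Polynomial.Separable at h1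
  have h2 : im (derivative P) = derivative (im P) := by
    simp [im, Polynomial.derivative_map]
  rw [h2]
  exact h1

lemma exists_list (s : Multiset K[X]) : (∀ b ∈ s, Irreducible b) →
    ∃ L : List ℝ[X][Y], (∀ P ∈ L, Good P) ∧ ∃ c : ℝ[X], c ≠ 0 ∧
      im L.prod = C (algebraMap ℝ[X] K c) * s.prod := by
  induction s using Multiset.induction_on with
  | empty => exact fun _ => ⟨[], by simp, 1, one_ne_zero, by simp [im]⟩
  | cons b s ih =>
    intro hb
    obtain ⟨L, hL, c, hc, hprod⟩ := ih (fun b' hb' => hb b' (Multiset.mem_cons_of_mem hb'))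
    obtain ⟨d, hd, b', hb'⟩ := exists_clear b
    refine ⟨b' :: L, ?_, d * c, mul_ne_zero hd hc, ?_⟩
    · intro P hP
      rcases List.mem_cons.1 hP with rfl | hP
      · have hirr := hb b (Multiset.mem_cons_self _ _)
        unfold Good
        rw [hb']
        have hu : IsUnit (C (algebraMap ℝ[X] K d)) := by
          rw [Polynomial.isUnit_C]
          exact isUnit_iff_ne_zero.2 (by
            simpa using hd)
        exact (irreducible_isUnit_mul hu).2 hirr
      · exact hL P hP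
    · rw [List.prod_cons, im_mul, hb', hprod, Multiset.prod_cons, map_mul, C_mul]
      ring

/-- Factorisation: for small positive `x` the zeros of `f(x,·)` are the zeros of good factors. -/
lemma exists_factors {f : ℝ[X][Y]} (hf : f ≠ 0) :
    ∃ L : List ℝ[X][Y], (∀ P ∈ L, Good P) ∧ ∃ ε > 0, ∀ x : ℝ, 0 < x → x < ε → ∀ y : ℝ,
      f.evalEval x y = 0 → ∃ P ∈ L, P.evalEval x y = 0 := by
  have hf' : im f ≠ 0 := fun h => hf (im_injective (by rw [h]; simp [im]))
  obtain ⟨s, hs, hassoc⟩ := WfDvdMonoid.exists_factors (im f) hf'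
  obtain ⟨L, hL, c, hc, hprod⟩ := exists_list s hs
  refine ⟨L, hL, ?_⟩
  obtain ⟨u, hu⟩ := hassoc
  -- L.prod = c * s.prod ;  s.prod * u = f ⇒ L.prod * (a multiple) ...
  obtain ⟨d, hd, w, hw⟩ := exists_clear (↑u⁻¹ : K[X])
  have hLu : im L.prod = C (algebraMap ℝ[X] K c) * (im f * ↑u⁻¹) := by
    rw [hprod, ← hu, mul_assoc s.prod]
    simp
  have key : C d * L.prod = C c * f * w := by
    apply im_injective
    rw [im_mul, im_mul, im_mul, hw, im_C, im_C, hLu]
    ring
  obtain ⟨ε, hε, hne⟩ := exists_eps_eval_ne_zero hd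
  refine ⟨ε, hε, fun x hx0 hxε y hfx => ?_⟩
  have h1 := congrArg (fun g => evalEval x y g) key
  simp only [evalEval_C, evalEval_mul, hfx, mul_zero, zero_mul] at h1
  have h2 := (mul_eq_zero.1 h1).resolve_left (hne x hx0 hxε)
  rw [evalEval_list_prod] at h2
  rw [List.prod_eq_zero_iff] at h2
  simpa using h2

end Pool.Agent.W777.SA
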