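import Pool.Agent.W777.SA1

set_option autoImplicit false

open Polynomial Set Filter
open scoped Polynomial.Bivariate Topology

namespace Pool.Agent.W777.SA

lemma evalEval_monomial' (x y : ℝ) (n : ℕ) (a : ℝ[X]) :
    (monomial n a : ℝ[X][Y]).evalEval x y = a.eval x * y ^ n := by
  simp [evalEval, eval_monomial]

lemma continuous_evalEval (P : ℝ[X][Y]) :
    Continuous (fun z : ℝ × ℝ => P.evalEval z.1 z.2) := by
  induction P using Polynomial.induction_on' with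
  | add p q hp hq =>
    simp only [evalEval_add]
    exact hp.add hq
  | monomial n a =>
    simp only [evalEval_monomial']
    exact (a.continuous.comp continuous_fst).mul (continuous_snd.pow n)

lemma hasDerivAt_evalEval_y (P : ℝ[X][Y]) (x y : ℝ) :
    HasDerivAt (fun y => P.evalEval x y) ((derivative P).evalEval x y) y := by
  have h := (P.map (evalRingHom x)).hasDerivAt y
  simp only [map_evalRingHom_eval, Polynomial.derivative_map] at h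
  exact h

lemma local_root {P : ℝ[X][Y]} {x₀ y₀ : ℝ} (h0 : P.evalEval x₀ y₀ = 0)
    (h1 : (derivative P).evalEval x₀ y₀ ≠ 0) {η : ℝ} (hη : 0 < η) :
    ∀ᶠ x in 𝓝 x₀, ∃ y, |y - y₀| < η ∧ P.evalEval x y = 0 := by
  set d := (derivative P).evalEval x₀ y₀ with hd
  have hder := hasDerivAt_evalEval_y P x₀ y₀
  have hslope := hder.tendsto_slope
  have hpos : ∀ᶠ y in 𝓝[≠] y₀, 0 < slope (fun y => P.evalEval x₀ y) y₀ y * d := by
    have h2 : Tendsto (fun y => slope (fun y => P.evalEval x₀ y) y₀ y * d) (𝓝[≠] y₀)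
        (𝓝 (d * d)) := hslope.mul_const d
    exact h2.eventually (lt_mem_nhds (mul_self_pos.2 h1))
  have hval : ∀ y, y ≠ y₀ → P.evalEval x₀ y
      = slope (fun y => P.evalEval x₀ y) y₀ y * (y - y₀) := by
    intro y hy
    have : y - y₀ ≠ 0 := sub_ne_zero.2 hy
    rw [slope_def_field, h0]
    field_simp
    ring
  have hright : ∀ᶠ y in 𝓝[>] y₀, 0 < slope (fun y => P.evalEval x₀ y) y₀ y * d :=
    hpos.filter_mono (nhdsWithin_mono _ (fun y hy => ne_of_gt hy))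
  have hleft : ∀ᶠ y in 𝓝[<] y₀, 0 < slope (fun y => P.evalEval x₀ y) y₀ y * d :=
    hpos.filter_mono (nhdsWithin_mono _ (fun y hy => ne_of_lt hy))
  have hr2 : ∀ᶠ y in 𝓝[>] y₀, y < y₀ + η :=
    (eventually_lt_nhds (by linarith)).filter_mono nhdsWithin_le_nhds
  have hl2 : ∀ᶠ y in 𝓝[<] y₀, y₀ - η < y :=
    (eventually_gt_nhds (by linarith)).filter_mono nhdsWithin_le_nhds
  obtain ⟨y₂, hy2a, hy2b, hy2c⟩ := (hright.and (hr2.and self_mem_nhdsWithin)).exists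
  obtain ⟨y₁, hy1a, hy1b, hy1c⟩ := (hleft.and (hl2.and self_mem_nhdsWithin)).exists
  have hy1c' : y₁ < y₀ := hy1c
  have hy2c' : y₀ < y₂ := hy2c
  have hprod : P.evalEval x₀ y₁ * P.evalEval x₀ y₂ < 0 := by
    rw [hval y₁ hy1c'.ne, hval y₂ hy2c'.ne']
    set s1 := slope (fun y => P.evalEval x₀ y) y₀ y₁
    set s2 := slope (fun y => P.evalEval x₀ y) y₀ y₂
    have h3 : 0 < (s1 * d) * (s2 * d) := mul_pos hy1a hy2a
    have h4 : 0 < s1 * s2 := by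
      have : (s1 * d) * (s2 * d) = (s1 * s2) * (d * d) := by ring
      rw [this] at h3
      exact (pos_iff_pos_of_mul_pos h3).2 (mul_self_pos.2 h1)
    have h5 : (y₁ - y₀) * (y₂ - y₀) < 0 := mul_neg_of_neg_of_pos (by linarith) (by linarith)
    have : s1 * (y₁ - y₀) * (s2 * (y₂ - y₀)) = (s1 * s2) * ((y₁ - y₀) * (y₂ - y₀)) := by ring
    rw [this]
    exact mul_neg_of_pos_of_neg h4 h5
  have hcont : Continuous (fun x => P.evalEval x y₁ * P.evalEval x y₂) :=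
    ((continuous_evalEval P).comp (continuous_id.prodMk continuous_const)).mul
      ((continuous_evalEval P).comp (continuous_id.prodMk continuous_const))
  have hev : ∀ᶠ x in 𝓝 x₀, P.evalEval x y₁ * P.evalEval x y₂ < 0 :=
    hcont.continuousAt.eventually (gt_mem_nhds hprod)
  filter_upwards [hev] with x hx
  have hcy : ContinuousOn (fun y => P.evalEval x y) (uIcc y₁ y₂) :=
    ((continuous_evalEval P).comp (continuous_const.prodMk continuous_id)).continuousOn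
  have hivt := intermediate_value_uIcc hcy
  have h0mem : (0:ℝ) ∈ uIcc (P.evalEval x y₁) (P.evalEval x y₂) := by
    rw [Set.mem_uIcc]
    rcases mul_neg_iff.1 hx with ⟨h, h'⟩ | ⟨h, h'⟩
    · right; exact ⟨h'.le, h.le⟩
    · left; exact ⟨h.le, h'.le⟩
  obtain ⟨y, hy, hy0⟩ := hivt h0mem
  rw [uIcc_of_le (by linarith)] at hy
  refine ⟨y, ?_, hy0⟩
  rw [abs_lt]
  constructor <;> linarith [hy.1, hy.2]

/-- the open condition -/
lemma open_cond (G : Set ℝ[X][Y]) (hG : G.Finite) (r : ℝ) {x₀ y₀ : ℝ} (hy : |y₀| < r)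
    (hq : ∀ Q ∈ G, 0 < Q.evalEval x₀ y₀) :
    ∃ η > 0, ∀ x y : ℝ, |x - x₀| < η → |y - y₀| < η → |y| < r ∧ ∀ Q ∈ G, 0 < Q.evalEval x y := by
  have hopen : ∀ᶠ z : ℝ × ℝ in 𝓝 (x₀, y₀), |z.2| < r ∧ ∀ Q ∈ G, 0 < Q.evalEval z.1 z.2 := by
    apply Filter.Eventually.and
    · exact (continuous_snd.abs.continuousAt (x := (x₀, y₀))).eventually (gt_mem_nhds hy)
    · rw [Filter.eventually_all_finite hG]
      intro Q hQ
      exact ((continuous_evalEval Q).continuousAt (x := (x₀, y₀))).eventually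
        (lt_mem_nhds (hq Q hQ))
  obtain ⟨η, hη, h⟩ := Metric.eventually_nhds_iff.1 hopen
  refine ⟨η, hη, fun x y hx hy => ?_⟩
  have := @h (x, y) (by
    rw [Prod.dist_eq, max_lt_iff]
    exact ⟨by simpa [Real.dist_eq] using hx, by simpa [Real.dist_eq] using hy⟩)
  exact this

/-- the set of abscissas of points of the piece on `P = 0` -/
def DSet (P : ℝ[X][Y]) (G : Set ℝ[X][Y]) (r ε : ℝ) : Set ℝ :=
  {x | (0 < x ∧ x < ε) ∧ ∃ y, |y| < r ∧ P.evalEval x y = 0 ∧ ∀ Q ∈ G, 0 < Q.evalEval x y}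

lemma DSet_isOpen (P : ℝ[X][Y]) (G : Set ℝ[X][Y]) (hG : G.Finite) (r ε : ℝ)
    (hsimple : ∀ x : ℝ, 0 < x → x < ε → ∀ y : ℝ, P.evalEval x y = 0 →
      (derivative P).evalEval x y ≠ 0) : IsOpen (DSet P G r ε) := by
  rw [isOpen_iff_mem_nhds]
  rintro x₀ ⟨⟨hx0, hxε⟩, y₀, hy, hP, hQ⟩
  obtain ⟨η, hη, h⟩ := open_cond G hG r hy hQ
  have h1 := local_root hP (hsimple x₀ hx0 hxε y₀ hP) hη
  have h2 : ∀ᶠ x in 𝓝 x₀, 0 < x := lt_mem_nhds hx0
  have h3 : ∀ᶠ x in 𝓝 x₀, x < ε := gt_mem_nhds hxε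
  have h4 : ∀ᶠ x in 𝓝 x₀, |x - x₀| < η := by
    have : Continuous fun x : ℝ => |x - x₀| := by fun_prop
    exact (this.continuousAt (x := x₀)).eventually (gt_mem_nhds (by simpa using hη))
  filter_upwards [h1, h2, h3, h4] with x hx1 hx2 hx3 hx4
  obtain ⟨y, hyη, hy0⟩ := hx1
  obtain ⟨ha, hb⟩ := h x y hx4 hyη
  exact ⟨⟨hx2, hx3⟩, y, ha, hy0, hb⟩

lemma DSet_closed (P : ℝ[X][Y]) (G : Set ℝ[X][Y]) (r ε : ℝ) (hεr : ε ≤ r)
    (hne : ∀ Q ∈ G, ∀ x : ℝ, 0 < x → x < ε → ∀ y : ℝ, P.evalEval x y = 0 →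
      Q.evalEval x y ≠ 0)
    (hsm : ∀ x : ℝ, 0 < x → x < ε → ∀ y : ℝ, |y| < r → P.evalEval x y = 0 →
      (∀ Q ∈ G, 0 < Q.evalEval x y) → |y| ≤ x) :
    closure (DSet P G r ε) ∩ Ioo 0 ε ⊆ DSet P G r ε := by
  rintro x₀ ⟨hcl, hx0, hxε⟩
  obtain ⟨u, hu, hlim⟩ := mem_closure_iff_seq_limit.1 hcl
  choose hu1 y hy1 hy2 hy3 using hu
  have hb : ∀ n, |y n| ≤ u n := fun n => hsm (u n) (hu1 n).1 (hu1 n).2 (y n) (hy1 n) (hy2 n) (hy3 n)
  have hyI : ∀ n, y n ∈ Icc (-r) r := fun n => by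
    have := hy1 n
    rw [abs_lt] at this
    exact ⟨this.1.le, this.2.le⟩
  obtain ⟨y₀, -, φ, hφ, hlimy⟩ := isCompact_Icc.tendsto_subseq hyI
  have hlimx : Tendsto (u ∘ φ) atTop (𝓝 x₀) := hlim.comp hφ.tendsto_atTop
  have hlimz : Tendsto (fun n => ((u ∘ φ) n, (y ∘ φ) n)) atTop (𝓝 (x₀, y₀)) :=
    hlimx.prodMk_nhds hlimy
  have hlimQ : ∀ Q : ℝ[X][Y], Tendsto (fun n => Q.evalEval ((u ∘ φ) n) ((y ∘ φ) n)) atTop
      (𝓝 (Q.evalEval x₀ y₀)) := fun Q =>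
    ((continuous_evalEval Q).tendsto (x₀, y₀)).comp hlimz
  have hyx : |y₀| ≤ x₀ :=
    le_of_tendsto_of_tendsto' hlimy.abs hlimx (fun n => hb (φ n))
  have hP0 : P.evalEval x₀ y₀ = 0 := by
    have h1 := hlimQ P
    have h2 : (fun n => P.evalEval ((u ∘ φ) n) ((y ∘ φ) n)) = fun _ => (0:ℝ) := by
      funext n
      exact hy2 (φ n)
    rw [h2] at h1
    exact (tendsto_nhds_unique h1 tendsto_const_nhds)
  refine ⟨⟨hx0, hxε⟩, y₀, by linarith, hP0, fun Q hQ => ?_⟩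
  have h1 : 0 ≤ Q.evalEval x₀ y₀ := ge_of_tendsto' (hlimQ Q) (fun n => (hy3 (φ n) Q hQ).le)
  exact lt_of_le_of_ne h1 (Ne.symm (hne Q hQ x₀ hx0 hxε y₀ hP0))

lemma DSet_dich (P : ℝ[X][Y]) (G : Set ℝ[X][Y]) (hG : G.Finite) (r ε : ℝ) (hεr : ε ≤ r)
    (hsimple : ∀ x : ℝ, 0 < x → x < ε → ∀ y : ℝ, P.evalEval x y = 0 →
      (derivative P).evalEval x y ≠ 0)
    (hne : ∀ Q ∈ G, ∀ x : ℝ, 0 < x → x < ε → ∀ y : ℝ, P.evalEval x y = 0 →
      Q.evalEval x y ≠ 0)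
    (hsm : ∀ x : ℝ, 0 < x → x < ε → ∀ y : ℝ, |y| < r → P.evalEval x y = 0 →
      (∀ Q ∈ G, 0 < Q.evalEval x y) → |y| ≤ x) :
    DSet P G r ε = ∅ ∨ Ioo 0 ε ⊆ DSet P G r ε := by
  rcases (DSet P G r ε).eq_empty_or_nonempty with h | h
  · exact Or.inl h
  · right
    apply isPreconnected_Ioo.subset_of_closure_inter_subset (DSet_isOpen P G hG r ε hsimple)
    · obtain ⟨x, hx⟩ := h
      exact ⟨x, ⟨hx.1.1, hx.1.2⟩, hx⟩
    · exact DSet_closed P G r ε hεr hne hsm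

/-- membership in the `i`-th piece -/
def Piece {k : ℕ} (f : Fin k → ℝ[X][Y]) (g : Fin k → Set ℝ[X][Y]) (i : Fin k) (x y : ℝ) : Prop :=
  (f i).evalEval x y = 0 ∧ ∀ p ∈ g i, 0 < p.evalEval x y

lemma ev_of (A : ℝ → Prop) (hmono : ∀ ε ε', 0 < ε' → ε' ≤ ε → A ε → A ε')
    (h : ∃ ε > 0, A ε) : ∀ᶠ ε in 𝓝[>] (0:ℝ), A ε := by
  obtain ⟨ε, hε, hA⟩ := h
  have h1 : ∀ᶠ ε' in 𝓝[>] (0:ℝ), ε' < ε := (gt_mem_nhds hε : ∀ᶠ ε' in 𝓝 (0:ℝ), ε' < ε).filter_mono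
    nhdsWithin_le_nhds
  filter_upwards [h1, self_mem_nhdsWithin] with ε' h1 h2
  exact hmono ε ε' h2 h1.le hA

theorem exists_branch {k : ℕ} (f : Fin k → ℝ[X][Y]) (g : Fin k → Set ℝ[X][Y])
    (hg : ∀ i, (g i).Finite) (r : ℝ) (hr : 0 < r)
    (hsv : ∀ x y₁ y₂ i j, 0 < x → x < r → |y₁| < r → |y₂| < r → Piece f g i x y₁ →
      Piece f g j x y₂ → y₁ = y₂)
    (hsm : ∀ x y i, 0 < x → x < r → |y| < r → Piece f g i x y → |y| ≤ x) :
    (∃ ε > 0, ∀ x y i, 0 < x → x < ε → |y| < r → ¬ Piece f g i x y) ∨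
    ∃ ε > 0, ε ≤ r ∧ ∃ (φ : ℝ → ℝ) (P : ℝ[X][Y]) (i : Fin k), Good P ∧
      ∀ x, 0 < x → x < ε → |φ x| < r ∧ P.evalEval x (φ x) = 0 ∧
        (derivative P).evalEval x (φ x) ≠ 0 ∧ Piece f g i x (φ x) ∧ ContinuousAt φ x := by
  classical
  -- covering by good polynomials
  have hcov : ∀ i, ∃ L : List ℝ[X][Y], (∀ P ∈ L, Good P) ∧ ∃ ε > 0, ∀ x : ℝ, 0 < x → x < ε →
      ∀ y : ℝ, |y| < r → Piece f g i x y → ∃ P ∈ L, P.evalEval x y = 0 := by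
    intro i
    by_cases hf : f i = 0
    · refine ⟨[], by simp, r, hr, fun x hx0 hxr y hy hp => ?_⟩
      exfalso
      obtain ⟨η, hη, h⟩ := open_cond (g i) (hg i) r hy hp.2
      obtain ⟨h1, h2⟩ := h x (y + η / 2) (by simpa using hη) (by
        rw [add_sub_cancel_left, abs_of_pos (by linarith)]; linarith)
      have h3 : Piece f g i x (y + η / 2) := ⟨by rw [hf]; simp, h2⟩
      have := hsv x y (y + η / 2) i i hx0 hxr hy h1 hp h3
      linarith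
    · obtain ⟨L, hL, ε, hε, h⟩ := exists_factors hf
      exact ⟨L, hL, ε, hε, fun x hx0 hxε y _ hp => h x hx0 hxε y hp.1⟩
  choose L hL εL hεL hcov using hcov
  set PP : Set ℝ[X][Y] := ⋃ i, {P | P ∈ L i} with hPP
  have hPPfin : PP.Finite := Set.finite_iUnion fun i => List.finite_toSet _
  set QQ : Set ℝ[X][Y] := Set.range f ∪ ⋃ i, g i with hQQ
  have hQQfin : QQ.Finite := (Set.finite_range f).union (Set.finite_iUnion hg)
  have hgood : ∀ P ∈ PP, Good P := by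
    intro P hP
    obtain ⟨i, hi⟩ := Set.mem_iUnion.1 hP
    exact hL i P hi
  -- common ε
  have e1 : ∀ᶠ ε in 𝓝[>] (0:ℝ), ∀ i, ∀ x : ℝ, 0 < x → x < ε →
      ∀ y : ℝ, |y| < r → Piece f g i x y → ∃ P ∈ L i, P.evalEval x y = 0 := by
    rw [Filter.eventually_all]
    intro i
    apply ev_of
    · intro ε ε' _ hle h x hx0 hxε
      exact h x hx0 (by linarith)
    · exact ⟨εL i, hεL i, hcov i⟩
  have e2 : ∀ᶠ ε in 𝓝[>] (0:ℝ), ∀ P ∈ PP, ∀ x : ℝ, 0 < x → x < ε → ∀ y : ℝ,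
      P.evalEval x y = 0 → (derivative P).evalEval x y ≠ 0 := by
    rw [Filter.eventually_all_finite hPPfin]
    intro P hP
    apply ev_of
    · intro ε ε' _ hle h x hx0 hxε
      exact h x hx0 (by linarith)
    · exact simple_root (hgood P hP)
  have e3 : ∀ᶠ ε in 𝓝[>] (0:ℝ), ∀ P ∈ PP, ∀ Q ∈ QQ,
      (∀ x : ℝ, 0 < x → x < ε → ∀ y : ℝ, P.evalEval x y = 0 → Q.evalEval x y = 0) ∨
      (∀ x : ℝ, 0 < x → x < ε → ∀ y : ℝ, P.evalEval x y = 0 → Q.evalEval x y ≠ 0) := by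
    rw [Filter.eventually_all_finite hPPfin]
    intro P hP
    rw [Filter.eventually_all_finite hQQfin]
    intro Q _
    apply ev_of
    · intro ε ε' _ hle h
      rcases h with h | h
      · exact Or.inl fun x hx0 hxε => h x hx0 (by linarith)
      · exact Or.inr fun x hx0 hxε => h x hx0 (by linarith)
    · exact dichotomy (hgood P hP) Q
  have e4 : ∀ᶠ ε in 𝓝[>] (0:ℝ), ε < r :=
    (gt_mem_nhds hr : ∀ᶠ ε in 𝓝 (0:ℝ), ε < r).filter_mono nhdsWithin_le_nhds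
  obtain ⟨ε, h1, h2, h3, h4, h5⟩ := (e1.and (e2.and (e3.and (e4.and self_mem_nhdsWithin)))).exists
  have hε : 0 < ε := h5
  by_cases hall : ∀ P ∈ PP, ∀ i, ∀ x : ℝ, 0 < x → x < ε → ∀ y : ℝ, |y| < r →
      P.evalEval x y = 0 → ¬ Piece f g i x y
  · left
    refine ⟨ε, hε, fun x y i hx0 hxε hy hp => ?_⟩
    obtain ⟨P, hP, hP0⟩ := h1 i x hx0 hxε y hy hp
    exact hall P (Set.mem_iUnion.2 ⟨i, hP⟩) i x hx0 hxε y hy hP0 hp
  · right
    push_neg at hall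
    obtain ⟨P, hP, i, xs, hxs0, hxsε, ys, hys, hPs, hps⟩ := hall
    have hfi : ∀ x : ℝ, 0 < x → x < ε → ∀ y : ℝ, P.evalEval x y = 0 →
        (f i).evalEval x y = 0 := by
      rcases h3 P hP (f i) (Or.inl ⟨i, rfl⟩) with h | h
      · exact h
      · exact absurd hps.1 (h xs hxs0 hxsε ys hPs)
    have hgi : ∀ Q ∈ g i, ∀ x : ℝ, 0 < x → x < ε → ∀ y : ℝ, P.evalEval x y = 0 →
        Q.evalEval x y ≠ 0 := by
      intro Q hQ
      rcases h3 P hP Q (Or.inr (Set.mem_iUnion.2 ⟨i, hQ⟩)) with h | h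
      · exact absurd (h xs hxs0 hxsε ys hPs) (hps.2 Q hQ).ne'
      · exact h
    have hdich := DSet_dich P (g i) (hg i) r ε h4.le (h2 P hP) hgi
      (fun x hx0 hxε y hy hPx hq => hsm x y i hx0 (by linarith) hy
        ⟨hfi x hx0 hxε y hPx, hq⟩)
    have hD : Ioo 0 ε ⊆ DSet P (g i) r ε := by
      rcases hdich with h | h
      · exfalso
        have : xs ∈ DSet P (g i) r ε := ⟨⟨hxs0, hxsε⟩, ys, hys, hPs, hps.2⟩
        rw [h] at this
        exact this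
      · exact h
    have hch : ∀ x, ∃ y, (0 < x ∧ x < ε) → |y| < r ∧ P.evalEval x y = 0 ∧
        ∀ Q ∈ g i, 0 < Q.evalEval x y := by
      intro x
      by_cases hx : 0 < x ∧ x < ε
      · obtain ⟨-, y, hy⟩ := hD hx
        exact ⟨y, fun _ => hy⟩
      · exact ⟨0, fun h => absurd h hx⟩
    choose φ hφ using hch
    refine ⟨ε, hε, h4.le, φ, P, i, hgood P hP, fun x₀ hx0 hxε => ?_⟩
    obtain ⟨ha, hb, hc⟩ := hφ x₀ ⟨hx0, hxε⟩
    refine ⟨ha, hb, h2 P hP x₀ hx0 hxε _ hb, ⟨hfi x₀ hx0 hxε _ hb, hc⟩, ?_⟩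
    rw [Metric.continuousAt_iff']
    intro δ hδ
    obtain ⟨η, hη, h⟩ := open_cond (g i) (hg i) r ha hc
    have hroot := local_root hb (h2 P hP x₀ hx0 hxε _ hb) (lt_min hη hδ)
    have hxa : ∀ᶠ x in 𝓝 x₀, 0 < x := lt_mem_nhds hx0
    have hxb : ∀ᶠ x in 𝓝 x₀, x < ε := gt_mem_nhds hxε
    have hxc : ∀ᶠ x in 𝓝 x₀, |x - x₀| < η := by
      have : Continuous fun x : ℝ => |x - x₀| := by fun_prop
      exact (this.continuousAt (x := x₀)).eventually (gt_mem_nhds (by simpa using hη))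
    filter_upwards [hroot, hxa, hxb, hxc] with x hx1 hx2 hx3 hx4
    obtain ⟨y, hyη, hy0⟩ := hx1
    obtain ⟨hy1, hy2⟩ := h x y hx4 (lt_of_lt_of_le hyη (min_le_left _ _))
    obtain ⟨hφ1, hφ2, hφ3⟩ := hφ x ⟨hx2, hx3⟩
    have heq : φ x = y := hsv x (φ x) y i i hx2 (by linarith) hφ1 hy1
      ⟨hfi x hx2 hx3 _ hφ2, hφ3⟩ ⟨hfi x hx2 hx3 _ hy0, hy2⟩
    rw [heq, Real.dist_eq]
    exact lt_of_lt_of_le hyη (min_le_right _ _)

end Pool.Agent.W777.SA
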