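import Pool.Agent.W777.SA2

set_option autoImplicit false

open Polynomial Set Filter Asymptotics
open scoped Polynomial.Bivariate Topology

namespace Pool.Agent.W777.SA

lemma exists_dX (N : ℝ[X][Y]) : ∃ Nx : ℝ[X][Y], ∀ x y : ℝ,
    HasStrictFDerivAt (fun z : ℝ × ℝ => N.evalEval z.1 z.2)
      (Nx.evalEval x y • ContinuousLinearMap.fst ℝ ℝ ℝ +
        (derivative N).evalEval x y • ContinuousLinearMap.snd ℝ ℝ ℝ) (x, y) := by
  induction N using Polynomial.induction_on' with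
  | add p q hp hq =>
    obtain ⟨px, hp⟩ := hp
    obtain ⟨qx, hq⟩ := hq
    refine ⟨px + qx, fun x y => ?_⟩
    have h := (hp x y).add (hq x y)
    have e1 : (fun z : ℝ × ℝ => (p + q).evalEval z.1 z.2) =
        (fun z : ℝ × ℝ => p.evalEval z.1 z.2) + (fun z : ℝ × ℝ => q.evalEval z.1 z.2) := by
      funext z; simp [evalEval_add]
    rw [e1]
    refine h.congr_fderiv ?_
    rw [derivative_add, evalEval_add, evalEval_add]
    module
  | monomial n a =>
    refine ⟨monomial n (derivative a), fun x y => ?_⟩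
    have h1 : HasStrictFDerivAt (fun z : ℝ × ℝ => a.eval z.1)
        ((derivative a).eval x • ContinuousLinearMap.fst ℝ ℝ ℝ) (x, y) := by
      have h := (a.hasStrictDerivAt x).comp_hasStrictFDerivAt (x, y)
        (hasStrictFDerivAt_fst (𝕜 := ℝ) (E := ℝ) (F := ℝ) (p := (x, y)))
      exact h
    have h2 : HasStrictFDerivAt (fun z : ℝ × ℝ => z.2 ^ n)
        ((n * y ^ (n - 1)) • ContinuousLinearMap.snd ℝ ℝ ℝ) (x, y) := by
      have h := (hasStrictDerivAt_pow n y).comp_hasStrictFDerivAt (x, y)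
        (hasStrictFDerivAt_snd (𝕜 := ℝ) (E := ℝ) (F := ℝ) (p := (x, y)))
      exact h
    have h3 := h1.mul h2
    have e1 : (fun z : ℝ × ℝ => (monomial n a : ℝ[X][Y]).evalEval z.1 z.2) =
        (fun z : ℝ × ℝ => a.eval z.1) * (fun z : ℝ × ℝ => z.2 ^ n) := by
      funext z; simp [evalEval_monomial']
    rw [e1]
    refine h3.congr_fderiv ?_
    rw [derivative_monomial, evalEval_monomial', evalEval_monomial']
    ext <;> simp [mul_comm, mul_left_comm, mul_assoc]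

lemma chain {N Nx : ℝ[X][Y]} (hN : ∀ x y : ℝ,
    HasStrictFDerivAt (fun z : ℝ × ℝ => N.evalEval z.1 z.2)
      (Nx.evalEval x y • ContinuousLinearMap.fst ℝ ℝ ℝ +
        (derivative N).evalEval x y • ContinuousLinearMap.snd ℝ ℝ ℝ) (x, y))
    {φ : ℝ → ℝ} {d x : ℝ} (hφ : HasDerivAt φ d x) :
    HasDerivAt (fun x => N.evalEval x (φ x))
      (Nx.evalEval x (φ x) + (derivative N).evalEval x (φ x) * d) x := by
  have h1 : HasDerivAt (fun x => (x, φ x)) ((1:ℝ), d) x := (hasDerivAt_id x).prodMk hφ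
  have h2 := (hN x (φ x)).hasFDerivAt.comp_hasDerivAt x h1
  refine HasDerivAt.congr_deriv h2 ?_
  simp

lemma phi_differentiable {P : ℝ[X][Y]} {φ : ℝ → ℝ} {x₀ : ℝ}
    (hP : ∀ᶠ x in 𝓝 x₀, P.evalEval x (φ x) = 0)
    (hPy : (derivative P).evalEval x₀ (φ x₀) ≠ 0) (hc : ContinuousAt φ x₀) :
    DifferentiableAt ℝ φ x₀ := by
  obtain ⟨Px, hPx⟩ := exists_dX P
  have hs := hPx x₀ (φ x₀)
  set b := (derivative P).evalEval x₀ (φ x₀) with hb
  set a := Px.evalEval x₀ (φ x₀)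
  have hinv : ((a • ContinuousLinearMap.fst ℝ ℝ ℝ + b • ContinuousLinearMap.snd ℝ ℝ ℝ) ∘L
      .inr ℝ ℝ ℝ).IsInvertible := by
    refine ⟨ContinuousLinearEquiv.unitsEquivAut ℝ (Units.mk0 b hPy), ?_⟩
    ext
    simp
  have h1 := hs.eventually_apply_eq_iff_implicitFunctionOfProdDomain hinv
  have h2 := hs.hasStrictFDerivAt_implicitFunctionOfProdDomain hinv
  set ψ := hs.implicitFunctionOfProdDomain hinv
  have h3 : Tendsto (fun x => (x, φ x)) (𝓝 x₀) (𝓝 (x₀, φ x₀)) :=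
    tendsto_id.prodMk_nhds hc
  have h4 := h3.eventually h1
  have h5 : φ =ᶠ[𝓝 x₀] ψ := by
    filter_upwards [h4, hP] with x hx1 hx2
    have h0 : P.evalEval x₀ (φ x₀) = 0 := hP.self_of_nhds
    have := hx1.1 (by rw [hx2, h0])
    exact this.symm
  exact (h2.hasFDerivAt.differentiableAt).congr_of_eventuallyEq h5

/-- one step of the derivative recursion -/
lemma step (P N : ℝ[X][Y]) (j : ℕ) : ∃ N' : ℝ[X][Y], ∀ (φ : ℝ → ℝ) (x₀ : ℝ),
    (∀ᶠ x in 𝓝 x₀, P.evalEval x (φ x) = 0) → (derivative P).evalEval x₀ (φ x₀) ≠ 0 →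
    ContinuousAt φ x₀ →
    HasDerivAt (fun x => N.evalEval x (φ x) / ((derivative P).evalEval x (φ x)) ^ j)
      (N'.evalEval x₀ (φ x₀) / ((derivative P).evalEval x₀ (φ x₀)) ^ (j + 2)) x₀ := by
  obtain ⟨Nx, hN⟩ := exists_dX N
  obtain ⟨Px, hP⟩ := exists_dX P
  obtain ⟨Pyx, hPy⟩ := exists_dX (derivative P)
  refine ⟨(Nx * derivative P - derivative N * Px) * derivative P -
    (j : ℝ[X][Y]) * N * (Pyx * derivative P - derivative (derivative P) * Px), ?_⟩
  intro φ x₀ h0 hne hc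
  have hd := (phi_differentiable h0 hne hc).hasDerivAt
  set d := deriv φ x₀
  have h1 := chain hN hd
  have h2 := chain hPy hd
  have h3 := chain hP hd
  have h4 : HasDerivAt (fun x => P.evalEval x (φ x)) 0 x₀ := by
    have : (fun x => P.evalEval x (φ x)) =ᶠ[𝓝 x₀] fun _ => (0:ℝ) := h0
    exact (hasDerivAt_const x₀ (0:ℝ)).congr_of_eventuallyEq this
  have h5 := h3.unique h4
  have h6 := h1.div (h2.pow j) (pow_ne_zero _ hne)
  refine HasDerivAt.congr_deriv h6 ?_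
  have hd' : d = - Px.evalEval x₀ (φ x₀) / (derivative P).evalEval x₀ (φ x₀) := by
    rw [eq_div_iff hne]
    linarith
  rw [evalEval_sub, evalEval_mul, evalEval_mul, evalEval_mul, evalEval_sub, evalEval_sub,
    evalEval_mul, evalEval_mul, evalEval_mul, evalEval_mul, evalEval_natCast]
  simp only [Pi.pow_apply]
  rw [hd']
  clear hd' h5 h6 h4 h3 h2 h1
  generalize (derivative P).evalEval x₀ (φ x₀) = Py at hne ⊢
  rcases j with _ | j
  · simp
    field_simp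
    ring
  · simp only [Nat.add_sub_cancel]
    field_simp
    ring

lemma sign_const {P : ℝ[X][Y]} (hP : Good P) (N : ℝ[X][Y]) (j : ℕ) {φ : ℝ → ℝ} {ε : ℝ} (hε : 0 < ε)
    (h : ∀ x, 0 < x → x < ε → P.evalEval x (φ x) = 0 ∧
      (derivative P).evalEval x (φ x) ≠ 0 ∧ ContinuousAt φ x) :
    ∃ ε' > 0, ε' ≤ ε ∧
      ((∀ x ∈ Ioo 0 ε', 0 ≤ N.evalEval x (φ x) / ((derivative P).evalEval x (φ x)) ^ j) ∨
      (∀ x ∈ Ioo 0 ε', N.evalEval x (φ x) / ((derivative P).evalEval x (φ x)) ^ j ≤ 0)) := by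
  obtain ⟨δ, hδ, hd⟩ := dichotomy hP N
  refine ⟨min ε δ, lt_min hε hδ, min_le_left _ _, ?_⟩
  rcases hd with hd | hd
  · left
    intro x hx
    rw [hd x hx.1 (lt_of_lt_of_le hx.2 (min_le_right _ _)) _
      (h x hx.1 (lt_of_lt_of_le hx.2 (min_le_left _ _))).1]
    simp
  · set F : ℝ → ℝ := fun x => N.evalEval x (φ x) / ((derivative P).evalEval x (φ x)) ^ j with hF
    have hcont : ContinuousOn F (Ioo 0 (min ε δ)) := by
      intro x hx
      obtain ⟨h1, h2, h3⟩ := h x hx.1 (lt_of_lt_of_le hx.2 (min_le_left _ _))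
      have hc : ∀ Q : ℝ[X][Y], ContinuousAt (fun x => Q.evalEval x (φ x)) x := fun Q =>
        ((continuous_evalEval Q).continuousAt (x := (x, φ x))).comp
          (f := fun x => (x, φ x)) (continuousAt_id.prodMk h3)
      exact ((hc N).div ((hc _).pow j) (pow_ne_zero _ h2)).continuousWithinAt
    have hne : ∀ x ∈ Ioo 0 (min ε δ), F x ≠ 0 := by
      intro x hx
      obtain ⟨h1, h2, h3⟩ := h x hx.1 (lt_of_lt_of_le hx.2 (min_le_left _ _))
      exact div_ne_zero (hd x hx.1 (lt_of_lt_of_le hx.2 (min_le_right _ _)) _ h1)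
        (pow_ne_zero _ h2)
    by_contra hcon
    rw [not_or] at hcon
    obtain ⟨h1, h2⟩ := hcon
    simp only [not_forall, not_le] at h1 h2
    obtain ⟨a, ha, hFa⟩ := h1
    obtain ⟨b, hb, hFb⟩ := h2
    have := isPreconnected_Ioo.intermediate_value ha hb hcont
    obtain ⟨x, hx, hx0⟩ := this (show (0:ℝ) ∈ Icc (F a) (F b) from ⟨hFa.le, hFb.le⟩)
    exact hne x hx hx0

/-- If `h = o(x^{n+1})` and `h'` is monotone then `h' = o(x^n)`. -/
lemma little_deriv {h h' h'' : ℝ → ℝ} {ε : ℝ} (hε : 0 < ε)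
    (d1 : ∀ x ∈ Ioo 0 ε, HasDerivAt h (h' x) x) (d2 : ∀ x ∈ Ioo 0 ε, HasDerivAt h' (h'' x) x)
    (s2 : (∀ x ∈ Ioo 0 ε, 0 ≤ h'' x) ∨ (∀ x ∈ Ioo 0 ε, h'' x ≤ 0)) (n : ℕ)
    (ho : ∀ c > 0, ∃ δ > 0, ∀ x, 0 < x → x < δ → |h x| ≤ c * x ^ (n + 1)) :
    ∀ c > 0, ∃ δ > 0, ∀ x, 0 < x → x < δ → |h' x| ≤ c * x ^ n := by
  intro c hc
  set c' := c / (2 ^ (n + 1) + 5) with hc'
  have hpos : (0:ℝ) < 2 ^ (n + 1) + 5 := by positivity
  have hc'pos : 0 < c' := div_pos hc hpos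
  obtain ⟨δ, hδ, hb⟩ := ho c' hc'pos
  refine ⟨min (δ / 2) (ε / 2), lt_min (by linarith) (by linarith), fun x hx0 hxδ => ?_⟩
  have hx1 : x < δ / 2 := lt_of_lt_of_le hxδ (min_le_left _ _)
  have hx2 : x < ε / 2 := lt_of_lt_of_le hxδ (min_le_right _ _)
  have hmono : MonotoneOn h' (Ioo 0 ε) ∨ AntitoneOn h' (Ioo 0 ε) := by
    have hcont : ContinuousOn h' (Ioo 0 ε) := fun x hx => (d2 x hx).continuousAt.continuousWithinAt
    rcases s2 with s2 | s2
    · left
      apply monotoneOn_of_deriv_nonneg (convex_Ioo _ _) hcont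
      · intro x hx
        rw [interior_Ioo] at hx
        exact (d2 x hx).differentiableAt.differentiableWithinAt
      · intro x hx
        rw [interior_Ioo] at hx
        rw [(d2 x hx).deriv]
        exact s2 x hx
    · right
      apply antitoneOn_of_deriv_nonpos (convex_Ioo _ _) hcont
      · intro x hx
        rw [interior_Ioo] at hx
        exact (d2 x hx).differentiableAt.differentiableWithinAt
      · intro x hx
        rw [interior_Ioo] at hx
        rw [(d2 x hx).deriv]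
        exact s2 x hx
  obtain ⟨ξ, hξ, hξe⟩ := exists_hasDerivAt_eq_slope h h' (show x < 2 * x by linarith)
    (fun z hz => (d1 z ⟨by linarith [hz.1], by linarith [hz.2]⟩).continuousAt.continuousWithinAt)
    (fun z hz => d1 z ⟨by linarith [hz.1], by linarith [hz.2]⟩)
  obtain ⟨ζ, hζ, hζe⟩ := exists_hasDerivAt_eq_slope h h' (show x / 2 < x by linarith)
    (fun z hz => (d1 z ⟨by linarith [hz.1], by linarith [hz.2]⟩).continuousAt.continuousWithinAt)
    (fun z hz => d1 z ⟨by linarith [hz.1], by linarith [hz.2]⟩)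
  have hxI : x ∈ Ioo 0 ε := ⟨hx0, by linarith⟩
  have hξI : ξ ∈ Ioo 0 ε := ⟨by linarith [hξ.1], by linarith [hξ.2]⟩
  have hζI : ζ ∈ Ioo 0 ε := ⟨by linarith [hζ.1], by linarith [hζ.2]⟩
  have hbetween : |h' x| ≤ |h' ξ| + |h' ζ| := by
    have hl : (h' ζ ≤ h' x ∧ h' x ≤ h' ξ) ∨ (h' ξ ≤ h' x ∧ h' x ≤ h' ζ) := by
      rcases hmono with hm | hm
      · exact Or.inl ⟨hm hζI hxI hζ.2.le, hm hxI hξI hξ.1.le⟩
      · exact Or.inr ⟨hm hxI hξI hξ.1.le, hm hζI hxI hζ.2.le⟩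
    have a1 := le_abs_self (h' ξ)
    have a2 := le_abs_self (h' ζ)
    have a3 := neg_abs_le (h' ξ)
    have a4 := neg_abs_le (h' ζ)
    have a5 := abs_nonneg (h' ξ)
    have a6 := abs_nonneg (h' ζ)
    rw [abs_le]
    rcases hl with ⟨h1, h2⟩ | ⟨h1, h2⟩ <;> constructor <;> linarith
  have b1 : |h (2 * x)| ≤ c' * (2 * x) ^ (n + 1) := hb (2 * x) (by linarith) (by linarith)
  have b2 : |h x| ≤ c' * x ^ (n + 1) := hb x hx0 (by linarith)
  have b3 : |h (x / 2)| ≤ c' * (x / 2) ^ (n + 1) := hb (x / 2) (by linarith) (by linarith)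
  have b3' : |h (x / 2)| ≤ c' * x ^ (n + 1) := by
    refine b3.trans (mul_le_mul_of_nonneg_left ?_ hc'pos.le)
    exact pow_le_pow_left₀ (by linarith) (by linarith) _
  have e1 : |h' ξ| ≤ c' * (2 ^ (n + 1) + 1) * x ^ n := by
    rw [hξe, abs_div, show 2 * x - x = x by ring, abs_of_pos hx0, div_le_iff₀ hx0]
    calc |h (2 * x) - h x| ≤ |h (2 * x)| + |h x| := abs_sub _ _
      _ ≤ c' * (2 * x) ^ (n + 1) + c' * x ^ (n + 1) := add_le_add b1 b2
      _ = c' * (2 ^ (n + 1) + 1) * x ^ n * x := by rw [mul_pow]; ring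
  have e2 : |h' ζ| ≤ c' * 4 * x ^ n := by
    rw [hζe, abs_div, show x - x / 2 = x / 2 by ring, abs_of_pos (by linarith : 0 < x / 2),
      div_le_iff₀ (by linarith)]
    calc |h x - h (x / 2)| ≤ |h x| + |h (x / 2)| := abs_sub _ _
      _ ≤ c' * x ^ (n + 1) + c' * x ^ (n + 1) := add_le_add b2 b3'
      _ = c' * 4 * x ^ n * (x / 2) := by ring
  calc |h' x| ≤ |h' ξ| + |h' ζ| := hbetween
    _ ≤ c' * (2 ^ (n + 1) + 1) * x ^ n + c' * 4 * x ^ n := add_le_add e1 e2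
    _ = (c' * (2 ^ (n + 1) + 5)) * x ^ n := by ring
    _ = c * x ^ n := by rw [hc', div_mul_cancel₀ _ hpos.ne']

end Pool.Agent.W777.SA
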