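import Pool.Agent.W777.SA3

set_option autoImplicit false

open Polynomial Set Filter Asymptotics
open scoped Polynomial.Bivariate Topology

namespace Pool.Agent.W777.SA

lemma glue_hasDeriv {ε : ℝ} (hε : 0 < ε) {H H' : ℝ → ℝ} (h0 : ∀ x ≤ 0, H x = 0)
    (h0' : ∀ x ≤ 0, H' x = 0) (hd : ∀ x ∈ Ioo 0 ε, HasDerivAt H (H' x) x)
    (hl : Tendsto H (𝓝[>] 0) (𝓝 0)) (hl' : Tendsto H' (𝓝[>] 0) (𝓝 0)) :
    ∀ x < ε, HasDerivAt H (H' x) x := by
  intro x hx
  rcases lt_trichotomy x 0 with hx0 | hx0 | hx0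
  · rw [h0' x hx0.le]
    have : H =ᶠ[𝓝 x] fun _ => (0:ℝ) := by
      filter_upwards [gt_mem_nhds hx0] with z hz
      exact h0 z (le_of_lt hz)
    exact (hasDerivAt_const x (0:ℝ)).congr_of_eventuallyEq this
  · subst hx0
    rw [h0' 0 le_rfl]
    have hleft : HasDerivWithinAt H 0 (Iic 0) 0 := by
      have := hasDerivWithinAt_const (0:ℝ) (Iic (0:ℝ)) (0:ℝ)
      exact this.congr (fun z hz => h0 z hz) (h0 0 le_rfl)
    have hright : HasDerivWithinAt H 0 (Ici 0) 0 := by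
      apply hasDerivWithinAt_Ici_of_tendsto_deriv (s := Ioo 0 ε)
      · exact fun z hz => (hd z hz).differentiableAt.differentiableWithinAt
      · unfold ContinuousWithinAt
        rw [h0 0 le_rfl]
        exact hl.mono_left (nhdsWithin_mono _ (fun z hz => hz.1))
      · exact Ioo_mem_nhdsGT hε
      · refine hl'.congr' ?_
        filter_upwards [Ioo_mem_nhdsGT hε] with z hz
        exact (hd z hz).deriv.symm
    have := hleft.union hright
    rw [Iic_union_Ici] at this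
    exact hasDerivWithinAt_univ.1 this
  · exact hd x ⟨hx0, hx⟩

lemma glue {ε : ℝ} (hε : 0 < ε) : ∀ (n : ℕ) (H : ℕ → ℝ → ℝ), (∀ k, ∀ x ≤ 0, H k x = 0) →
    (∀ k < n, ∀ x ∈ Ioo 0 ε, HasDerivAt (H k) (H (k + 1) x) x) →
    (∀ x ∈ Ioo 0 ε, ContinuousAt (H n) x) → (∀ k ≤ n, Tendsto (H k) (𝓝[>] 0) (𝓝 0)) →
    ContDiffOn ℝ n (H 0) (Iio ε) := by
  intro n
  induction n with
  | zero =>
    intro H h0 _ hc hl
    rw [Nat.cast_zero, contDiffOn_zero]
    intro x hx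
    rcases lt_trichotomy x 0 with hx0 | hx0 | hx0
    · have : H 0 =ᶠ[𝓝 x] fun _ => (0:ℝ) := by
        filter_upwards [gt_mem_nhds hx0] with z hz
        exact h0 0 z (le_of_lt hz)
      exact (continuousAt_const.congr this.symm).continuousWithinAt
    · subst hx0
      apply ContinuousAt.continuousWithinAt
      rw [continuousAt_iff_continuous_left'_right']
      constructor
      · have : EqOn (H 0) (fun _ => (0:ℝ)) (Iio 0) := fun z hz => h0 0 z (le_of_lt hz)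
        exact continuousWithinAt_const.congr this (h0 0 0 le_rfl)
      · unfold ContinuousWithinAt
        rw [h0 0 0 le_rfl]
        exact hl 0 le_rfl
    · exact (hc x ⟨hx0, hx⟩).continuousWithinAt
  | succ n ih =>
    intro H h0 hd hc hl
    have hder := glue_hasDeriv hε (h0 0) (h0 1) (hd 0 (Nat.succ_pos n)) (hl 0 (Nat.zero_le _))
      (hl 1 (Nat.succ_le_succ (Nat.zero_le _)))
    rw [Nat.cast_succ, contDiffOn_succ_iff_deriv_of_isOpen isOpen_Iio]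
    refine ⟨fun x hx => (hder x hx).differentiableAt.differentiableWithinAt, by simp, ?_⟩
    have hih := ih (fun k => H (k + 1)) (fun k => h0 (k + 1))
      (fun k hk => hd (k + 1) (Nat.succ_lt_succ hk)) hc
      (fun k hk => hl (k + 1) (Nat.succ_le_succ hk))
    exact hih.congr (fun x hx => (hder x hx).deriv)

lemma tendsto_of_bound {F : ℝ → ℝ} {n : ℕ}
    (h : ∀ c > 0, ∃ δ > 0, ∀ x, 0 < x → x < δ → |F x| ≤ c * x ^ n) :
    Tendsto F (𝓝[>] 0) (𝓝 0) := by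
  rw [Metric.tendsto_nhdsWithin_nhds]
  intro e he
  obtain ⟨δ, hδ, hb⟩ := h (e / 2) (by linarith)
  refine ⟨min δ 1, lt_min hδ one_pos, fun x hx hdx => ?_⟩
  have hx0 : 0 < x := hx
  rw [Real.dist_eq, sub_zero, abs_of_pos hx0] at hdx
  have hx1 : x < 1 := lt_of_lt_of_le hdx (min_le_right _ _)
  have h1 := hb x hx0 (lt_of_lt_of_le hdx (min_le_left _ _))
  rw [Real.dist_eq, sub_zero]
  have h2 : x ^ n ≤ 1 := pow_le_one₀ hx0.le hx1.le
  nlinarith [abs_nonneg (F x)]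

theorem one_side {k : ℕ} (f : Fin k → ℝ[X][Y]) (g : Fin k → Set ℝ[X][Y])
    (hg : ∀ i, (g i).Finite) (r : ℝ) (hr : 0 < r)
    (hsv : ∀ x y₁ y₂ i j, 0 < x → x < r → |y₁| < r → |y₂| < r → Piece f g i x y₁ →
      Piece f g j x y₂ → y₁ = y₂)
    (hsm : ∀ x y i, 0 < x → x < r → |y| < r → Piece f g i x y → |y| ≤ x)
    (ho : ∀ c > 0, ∃ δ > 0, ∀ x y i, 0 < x → x < δ → |y| < r → Piece f g i x y →
      |y| ≤ c * x ^ 2) :
    ∃ ε > 0, ∃ h h' : ℝ → ℝ, (∀ x ≤ 0, h x = 0) ∧ (∀ x ≤ 0, h' x = 0) ∧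
      ContDiffOn ℝ 4 h (Iio ε) ∧ (∀ x < ε, HasDerivAt h (h' x) x) ∧
      (∀ c > 0, ∃ δ > 0, ∀ x, 0 < x → x < δ → |h' x| ≤ c * x ^ 3) ∧
      ∀ x y i, 0 < x → x < ε → |y| < r → Piece f g i x y → x ^ 2 * y = h x := by
  rcases exists_branch f g hg r hr hsv hsm with ⟨ε, hε, hno⟩ | ⟨ε, hε, hεr, φ, P, i₀, hP, hφ⟩
  · refine ⟨ε, hε, fun _ => 0, fun _ => 0, fun _ _ => rfl, fun _ _ => rfl, contDiffOn_const,
      fun x _ => hasDerivAt_const x 0, ?_, ?_⟩
    · intro c hc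
      exact ⟨1, one_pos, fun x hx0 _ => by simp; positivity⟩
    · intro x y i hx0 hxε hy hp
      exact absurd hp (hno x y i hx0 hxε hy)
  · -- the derivative sequence
    choose nx hnx using step P
    set N : ℕ → ℝ[X][Y] := fun k => Nat.rec (C X ^ 2 * Y) (fun k Nk => nx Nk (2 * k)) k with hN
    have hN0 : N 0 = C X ^ 2 * Y := rfl
    have hNs : ∀ k, N (k + 1) = nx (N k) (2 * k) := fun k => rfl
    set F : ℕ → ℝ → ℝ := fun k x =>
      (N k).evalEval x (φ x) / ((derivative P).evalEval x (φ x)) ^ (2 * k) with hF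
    have hF0 : ∀ x, F 0 x = x ^ 2 * φ x := by
      intro x
      simp [hF, hN0, evalEval_mul, evalEval_pow, evalEval_C]
    have hFd : ∀ k, ∀ x ∈ Ioo 0 ε, HasDerivAt (F k) (F (k + 1) x) x := by
      intro k x hx
      obtain ⟨h1, h2, h3, h4, h5⟩ := hφ x hx.1 hx.2
      have hev : ∀ᶠ z in 𝓝 x, P.evalEval z (φ z) = 0 := by
        filter_upwards [Ioo_mem_nhds hx.1 hx.2] with z hz
        exact (hφ z hz.1 hz.2).2.1
      have := hnx (N k) (2 * k) φ x hev h3 h5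
      exact this
    have hsg : ∀ k, ∃ ε' > 0, ε' ≤ ε ∧ ((∀ x ∈ Ioo 0 ε', 0 ≤ F k x) ∨
        (∀ x ∈ Ioo 0 ε', F k x ≤ 0)) := fun k =>
      sign_const hP (N k) (2 * k) hε (fun x hx0 hxε => by
        obtain ⟨h1, h2, h3, h4, h5⟩ := hφ x hx0 hxε
        exact ⟨h2, h3, h5⟩)
    have hstep : ∀ k n : ℕ, (∀ c > 0, ∃ δ > 0, ∀ x, 0 < x → x < δ → |F k x| ≤ c * x ^ (n + 1)) →
        ∀ c > 0, ∃ δ > 0, ∀ x, 0 < x → x < δ → |F (k + 1) x| ≤ c * x ^ n := by
      intro k n hk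
      obtain ⟨ε', hε', hle, hs⟩ := hsg (k + 2)
      exact little_deriv hε' (fun x hx => hFd k x ⟨hx.1, by linarith [hx.2]⟩)
        (fun x hx => hFd (k + 1) x ⟨hx.1, by linarith [hx.2]⟩) hs n hk
    have b0 : ∀ c > 0, ∃ δ > 0, ∀ x, 0 < x → x < δ → |F 0 x| ≤ c * x ^ (3 + 1) := by
      intro c hc
      obtain ⟨δ, hδ, h⟩ := ho c hc
      refine ⟨min δ ε, lt_min hδ hε, fun x hx0 hxδ => ?_⟩
      obtain ⟨h1, h2, h3, h4, h5⟩ := hφ x hx0 (lt_of_lt_of_le hxδ (min_le_right _ _))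
      have := h x (φ x) i₀ hx0 (lt_of_lt_of_le hxδ (min_le_left _ _)) h1 h4
      rw [hF0, abs_mul, abs_of_nonneg (by positivity : 0 ≤ x ^ 2)]
      calc x ^ 2 * |φ x| ≤ x ^ 2 * (c * x ^ 2) := mul_le_mul_of_nonneg_left this (by positivity)
        _ = c * x ^ (3 + 1) := by ring
    have b1 := hstep 0 3 b0
    have b2 := hstep 1 2 b1
    have b3 := hstep 2 1 b2
    have b4 := hstep 3 0 b3
    set H : ℕ → ℝ → ℝ := fun k x => if x ≤ 0 then 0 else F k x with hH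
    have hH0 : ∀ k, ∀ x ≤ 0, H k x = 0 := fun k x hx => by simp [hH, hx]
    have hHp : ∀ k x, 0 < x → H k x = F k x := fun k x hx => by
      simp [hH, not_le.2 hx]
    have hHev : ∀ k, ∀ x, 0 < x → H k =ᶠ[𝓝 x] F k := fun k x hx => by
      filter_upwards [lt_mem_nhds hx] with z hz
      exact hHp k z hz
    have hHd : ∀ k, ∀ x ∈ Ioo 0 ε, HasDerivAt (H k) (H (k + 1) x) x := by
      intro k x hx
      rw [hHp (k + 1) x hx.1]
      exact (hFd k x hx).congr_of_eventuallyEq (hHev k x hx.1)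
    have hHl : ∀ k ≤ 4, Tendsto (H k) (𝓝[>] 0) (𝓝 0) := by
      have key : ∀ k n, (∀ c > 0, ∃ δ > 0, ∀ x, 0 < x → x < δ → |F k x| ≤ c * x ^ n) →
          Tendsto (H k) (𝓝[>] 0) (𝓝 0) := by
        intro k n hb
        refine (tendsto_of_bound hb).congr' ?_
        filter_upwards [self_mem_nhdsWithin] with z hz
        exact (hHp k z hz).symm
      intro k hk
      interval_cases k
      · exact key 0 _ b0
      · exact key 1 _ b1
      · exact key 2 _ b2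
      · exact key 3 _ b3
      · exact key 4 _ b4
    refine ⟨ε, hε, H 0, H 1, hH0 0, hH0 1, ?_, ?_, ?_, ?_⟩
    · exact glue hε 4 H hH0 (fun k _ => hHd k) (fun x hx => (hHd 4 x hx).continuousAt) hHl
    · exact glue_hasDeriv hε (hH0 0) (hH0 1) (hHd 0) (hHl 0 (by norm_num)) (hHl 1 (by norm_num))
    · intro c hc
      obtain ⟨δ, hδ, h⟩ := b1 c hc
      exact ⟨δ, hδ, fun x hx0 hxδ => by rw [hHp 1 x hx0]; exact h x hx0 hxδ⟩
    · intro x y i hx0 hxε hy hp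
      obtain ⟨h1, h2, h3, h4, h5⟩ := hφ x hx0 hxε
      rw [hHp 0 x hx0, hF0, hsv x y (φ x) i i₀ hx0 (by linarith) hy h1 hp h4]

end Pool.Agent.W777.SA
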