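import Pool.Agent.W777.SA4

set_option autoImplicit false

open Set Filter Asymptotics
open scoped Topology

namespace Pool.Agent.W777.SA

universe u

/-- a `C^m` function with zero `m`-jet at `0` is `o(‖z‖^m)`. -/
lemma jet_small {E : Type u} [NormedAddCommGroup E] [NormedSpace ℝ E] : ∀ (m : ℕ) {F : Type u}
    [NormedAddCommGroup F] [NormedSpace ℝ F] (R : E → F), ContDiff ℝ m R →
    (∀ j ≤ m, iteratedFDeriv ℝ j R 0 = 0) →
    ∀ c > 0, ∃ δ > 0, ∀ z, ‖z‖ < δ → ‖R z‖ ≤ c * ‖z‖ ^ m := by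
  intro m
  induction m with
  | zero =>
    intro F _ _ R hR hj c hc
    have h0 : R 0 = 0 := by
      have := hj 0 le_rfl
      have h2 := congrArg (fun A => A 0) this
      simpa using h2
    have hcont := hR.continuous.continuousAt (x := (0:E))
    rw [Metric.continuousAt_iff] at hcont
    obtain ⟨δ, hδ, h⟩ := hcont c hc
    refine ⟨δ, hδ, fun z hz => ?_⟩
    have := h (x := z) (by simpa using hz)
    rw [h0, dist_zero_right] at this
    simpa using this.le
  | succ m ih =>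
    intro F _ _ R hR hj c hc
    have hR1 : ContDiff ℝ m (fderiv ℝ R) := by
      apply hR.fderiv_right
      norm_cast
    have hj1 : ∀ j ≤ m, iteratedFDeriv ℝ j (fderiv ℝ R) 0 = 0 := by
      intro j hjm
      rw [← norm_eq_zero, norm_iteratedFDeriv_fderiv, hj (j + 1) (by omega), norm_zero]
    obtain ⟨δ, hδ, h⟩ := ih (fderiv ℝ R) hR1 hj1 c hc
    have h0 : R 0 = 0 := by
      have := hj 0 (Nat.zero_le _)
      have h2 := congrArg (fun A => A 0) this
      simpa using h2
    refine ⟨δ, hδ, fun z hz => ?_⟩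
    have hdiff : Differentiable ℝ R := hR.differentiable (by simp)
    have hmv := (convex_closedBall (0:E) ‖z‖).norm_image_sub_le_of_norm_fderiv_le (𝕜 := ℝ)
      (f := R) (C := c * ‖z‖ ^ m) (x := 0) (y := z) (fun x _ => hdiff x)
      (fun x hx => by
        rw [mem_closedBall_zero_iff] at hx
        refine (h x (lt_of_le_of_lt hx hz)).trans ?_
        exact mul_le_mul_of_nonneg_left (pow_le_pow_left₀ (norm_nonneg _) hx _) hc.le)
      (by simp) (by simp)
    rw [h0, sub_zero, sub_zero] at hmv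
    rw [pow_succ, ← mul_assoc]
    exact hmv

/-- gradient version -/
lemma jet_small_fderiv {E : Type u} [NormedAddCommGroup E] [NormedSpace ℝ E] (m : ℕ) {F : Type u}
    [NormedAddCommGroup F] [NormedSpace ℝ F] (R : E → F) (hR : ContDiff ℝ (m + 1 : ℕ) R)
    (hj : ∀ j ≤ m + 1, iteratedFDeriv ℝ j R 0 = 0) :
    ∀ c > 0, ∃ δ > 0, ∀ z, ‖z‖ < δ → ‖fderiv ℝ R z‖ ≤ c * ‖z‖ ^ m := by
  have hR1 : ContDiff ℝ m (fderiv ℝ R) := by
    apply hR.fderiv_right
    norm_cast
  have hj1 : ∀ j ≤ m, iteratedFDeriv ℝ j (fderiv ℝ R) 0 = 0 := by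
    intro j hjm
    rw [← norm_eq_zero, norm_iteratedFDeriv_fderiv, hj (j + 1) (by omega), norm_zero]
  exact jet_small m _ hR1 hj1

/-- the coefficients of the derivatives of `x^5 sin(log x)` -/
noncomputable def ab : ℕ → ℝ × ℝ
  | 0 => (1, 0)
  | k + 1 => (((5 - k : ℕ) : ℝ) * (ab k).1 - (ab k).2, ((5 - k : ℕ) : ℝ) * (ab k).2 + (ab k).1)

/-- the derivatives of `x^5 sin(log x)` -/
noncomputable def Wk (k : ℕ) (x : ℝ) : ℝ :=
  if x ≤ 0 then 0 else
    x ^ (5 - k) * ((ab k).1 * Real.sin (Real.log x) + (ab k).2 * Real.cos (Real.log x))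

/-- `w x = x^5 sin (log x)` for `x > 0`, `0` for `x ≤ 0` -/
noncomputable def w (x : ℝ) : ℝ := if x ≤ 0 then 0 else x ^ 5 * Real.sin (Real.log x)

lemma Wk_zero : Wk 0 = w := by
  funext x
  simp [Wk, w, ab]

lemma Wk_of_nonpos (k : ℕ) (x : ℝ) (hx : x ≤ 0) : Wk k x = 0 := by simp [Wk, hx]

lemma Wk_of_pos (k : ℕ) (x : ℝ) (hx : 0 < x) : Wk k x =
    x ^ (5 - k) * ((ab k).1 * Real.sin (Real.log x) + (ab k).2 * Real.cos (Real.log x)) := by
  simp [Wk, not_le.2 hx]

lemma Wk_deriv (k : ℕ) (hk : k < 4) (x : ℝ) (hx : 0 < x) :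
    HasDerivAt (Wk k) (Wk (k + 1) x) x := by
  have hev : Wk k =ᶠ[𝓝 x] fun x => x ^ (5 - k) * ((ab k).1 * Real.sin (Real.log x) +
      (ab k).2 * Real.cos (Real.log x)) := by
    filter_upwards [lt_mem_nhds hx] with z hz
    exact Wk_of_pos k z hz
  have h1 : HasDerivAt (fun x : ℝ => x ^ (5 - k)) (((5 - k : ℕ) : ℝ) * x ^ (5 - k - 1)) x :=
    hasDerivAt_pow _ _
  have h2 : HasDerivAt (fun x : ℝ => Real.sin (Real.log x)) (Real.cos (Real.log x) * x⁻¹) x :=
    (Real.hasDerivAt_sin _).comp x (Real.hasDerivAt_log hx.ne')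
  have h3 : HasDerivAt (fun x : ℝ => Real.cos (Real.log x)) (-Real.sin (Real.log x) * x⁻¹) x :=
    (Real.hasDerivAt_cos _).comp x (Real.hasDerivAt_log hx.ne')
  have h4 := h1.mul ((h2.const_mul (ab k).1).add (h3.const_mul (ab k).2))
  refine (HasDerivAt.congr_deriv h4 ?_).congr_of_eventuallyEq hev
  rw [Wk_of_pos (k + 1) x hx]
  have h5 : x ^ (5 - k) = x ^ (5 - k - 1) * x := by
    rw [← pow_succ]
    congr 1
    omega
  have h6 : 5 - (k + 1) = 5 - k - 1 := by omega
  simp only [ab, h6, Pi.add_apply, h5]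
  field_simp
  ring

lemma Wk_bound (k : ℕ) (hk : k ≤ 4) : Tendsto (Wk k) (𝓝[>] 0) (𝓝 0) := by
  have h1 : Tendsto (fun x : ℝ => x * (|(ab k).1| + |(ab k).2|)) (𝓝[>] 0) (𝓝 0) := by
    have : Tendsto (fun x : ℝ => x * (|(ab k).1| + |(ab k).2|)) (𝓝 0)
        (𝓝 (0 * (|(ab k).1| + |(ab k).2|))) := tendsto_id.mul_const _
    rw [zero_mul] at this
    exact this.mono_left nhdsWithin_le_nhds
  refine squeeze_zero_norm' ?_ h1
  have h2 : ∀ᶠ x in 𝓝[>] (0:ℝ), x < 1 :=
    (gt_mem_nhds one_pos : ∀ᶠ x in 𝓝 (0:ℝ), x < 1).filter_mono nhdsWithin_le_nhds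
  filter_upwards [self_mem_nhdsWithin, h2] with x hx hx1
  have hx0 : 0 < x := hx
  rw [Wk_of_pos k x hx0, Real.norm_eq_abs, abs_mul, abs_of_pos (pow_pos hx0 _)]
  have h3 : x ^ (5 - k) ≤ x := by
    calc x ^ (5 - k) ≤ x ^ 1 := pow_le_pow_of_le_one hx0.le hx1.le (by omega)
      _ = x := pow_one x
  have h4 : |(ab k).1 * Real.sin (Real.log x) + (ab k).2 * Real.cos (Real.log x)| ≤
      |(ab k).1| + |(ab k).2| := by
    refine (abs_add_le _ _).trans (add_le_add ?_ ?_)
    · rw [abs_mul]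
      exact mul_le_of_le_one_right (abs_nonneg _) (Real.abs_sin_le_one _)
    · rw [abs_mul]
      exact mul_le_of_le_one_right (abs_nonneg _) (Real.abs_cos_le_one _)
  exact mul_le_mul h3 h4 (abs_nonneg _) hx0.le

lemma w_contDiff : ContDiff ℝ 4 w := by
  rw [← Wk_zero, contDiff_iff_contDiffAt]
  intro x
  have hpos : 0 < |x| + 1 := by positivity
  have h := glue hpos 4 Wk Wk_of_nonpos (fun k hk z hz => Wk_deriv k hk z hz.1)
    (fun z hz => by
      have hev : Wk 4 =ᶠ[𝓝 z] fun x => x ^ (5 - 4) * ((ab 4).1 * Real.sin (Real.log x) +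
          (ab 4).2 * Real.cos (Real.log x)) := by
        filter_upwards [lt_mem_nhds hz.1] with u hu
        exact Wk_of_pos 4 u hu
      refine ContinuousAt.congr ?_ hev.symm
      have hl := Real.continuousAt_log hz.1.ne'
      have hs : ContinuousAt (fun x => Real.sin (Real.log x)) z :=
        Real.continuous_sin.continuousAt.comp hl
      have hc : ContinuousAt (fun x => Real.cos (Real.log x)) z :=
        Real.continuous_cos.continuousAt.comp hl
      exact (continuousAt_id.pow _).mul ((continuousAt_const.mul hs).add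
        (continuousAt_const.mul hc)))
    Wk_bound
  exact h.contDiffAt (Iio_mem_nhds (by linarith [le_abs_self x]))

lemma w_bound (x : ℝ) : |w x| ≤ |x| ^ 5 := by
  unfold w
  split_ifs with h
  · simp
  · rw [abs_mul, abs_pow]
    exact mul_le_of_le_one_right (by positivity) (Real.abs_sin_le_one _)

/-- the pairs of points -/
lemma exists_pair (δ : ℝ) (hδ : 0 < δ) : ∃ t s : ℝ, 0 < t ∧ t < s ∧ s < δ ∧ w t = 0 ∧ w s = s ^ 6 ∧
    s - t ≤ 2 * t ^ 2 := by
  set δ' := min (δ / 2) (1 / 10) with hδ'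
  have hδ'0 : 0 < δ' := lt_min (by linarith) (by norm_num)
  have hlim : Tendsto (fun k : ℕ => Real.exp (-((k : ℝ) * (2 * Real.pi)))) atTop (𝓝 0) := by
    apply Real.tendsto_exp_neg_atTop_nhds_zero.comp
    exact tendsto_natCast_atTop_atTop.atTop_mul_const (by positivity)
  obtain ⟨k, hk⟩ := (hlim.eventually (gt_mem_nhds hδ'0)).exists
  set t := Real.exp (-((k : ℝ) * (2 * Real.pi))) with ht
  have ht0 : 0 < t := Real.exp_pos _
  have ht1 : t < 1 / 10 := lt_of_lt_of_le hk (min_le_right _ _)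
  have ht2 : t < δ / 2 := lt_of_lt_of_le hk (min_le_left _ _)
  have hlogt : Real.log t = -((k : ℝ) * (2 * Real.pi)) := Real.log_exp _
  have hsin0 : Real.sin (Real.log t) = 0 := by
    rw [hlogt, ← zero_sub, Real.sin_sub_nat_mul_two_pi, Real.sin_zero]
  set q : ℝ → ℝ := fun x => Real.sin (Real.log x) - x with hq
  have hqt : q t < 0 := by
    simp only [hq, hsin0]
    linarith
  set s' := t * (1 + 2 * t) with hs'
  have hs't : t < s' := by rw [hs']; nlinarith
  have hqs : 0 < q s' := by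
    have h12 : (0:ℝ) < 1 + 2 * t := by positivity
    have hlog : Real.log s' = Real.log (1 + 2 * t) - (k : ℝ) * (2 * Real.pi) := by
      rw [hs', Real.log_mul ht0.ne' h12.ne', hlogt]
      ring
    have hsin : Real.sin (Real.log s') = Real.sin (Real.log (1 + 2 * t)) := by
      rw [hlog, Real.sin_sub_nat_mul_two_pi]
    set v := Real.log (1 + 2 * t) with hv
    have hv1 : 1 - (1 + 2 * t)⁻¹ ≤ v := Real.one_sub_inv_le_log_of_pos h12
    have hv2 : v ≤ 2 * t := by
      have := Real.log_le_sub_one_of_pos h12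
      linarith
    have hv3 : 2 * t - 4 * t ^ 2 ≤ v := by
      refine le_trans ?_ hv1
      have : 1 - (1 + 2 * t)⁻¹ = 2 * t / (1 + 2 * t) := by
        field_simp
        ring
      rw [this, le_div_iff₀ h12]
      nlinarith [pow_pos ht0 3]
    have hv0 : 0 < v := by nlinarith
    have hsv := Real.sin_gt_sub_cube hv0
    have hv4 : v ^ 3 ≤ (2 * t) ^ 3 := pow_le_pow_left₀ hv0.le hv2 3
    have : q s' = Real.sin v - s' := by simp only [hq, hsin]
    rw [this, hs']
    nlinarith [pow_pos ht0 2, pow_pos ht0 3]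
  have hcont : ContinuousOn q (Icc t s') := by
    intro x hx
    have hx0 : 0 < x := by linarith [hx.1]
    have h1 : ContinuousAt (fun x => Real.sin (Real.log x)) x :=
      Real.continuous_sin.continuousAt.comp (Real.continuousAt_log hx0.ne')
    exact (h1.sub continuousAt_id).continuousWithinAt
  obtain ⟨s, hs, hs0⟩ := intermediate_value_Icc hs't.le hcont (show (0:ℝ) ∈ Icc (q t) (q s') from
    ⟨hqt.le, hqs.le⟩)
  have hsne : s ≠ t := by
    rintro rfl
    rw [hs0] at hqt
    exact lt_irrefl _ hqt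
  have hst : t < s := lt_of_le_of_ne hs.1 (Ne.symm hsne)
  have hs00 : 0 < s := by linarith
  refine ⟨t, s, ht0, hst, ?_, ?_, ?_, ?_⟩
  · have := hs.2
    rw [hs'] at this
    nlinarith
  · unfold w
    rw [if_neg (not_le.2 ht0), hsin0, mul_zero]
  · unfold w
    rw [if_neg (not_le.2 hs00)]
    have : Real.sin (Real.log s) = s := by
      simp only [hq] at hs0
      linarith
    rw [this]
    ring
  · have := hs.2
    rw [hs'] at this
    nlinarith

end Pool.Agent.W777.SA
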