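import Pool.Agent.W777.SA5

set_option autoImplicit false

open Set Filter
open scoped Topology

namespace Pool.Agent.W777.SA

/-- the point `z` lies in the `i`-th basic piece -/
def InP {k : ℕ} (f : Fin k → MvPolynomial (Fin 2) ℝ) (g : Fin k → Finset (MvPolynomial (Fin 2) ℝ))
    (i : Fin k) (z : Fin 2 → ℝ) : Prop :=
  MvPolynomial.eval z (f i) = 0 ∧ ∀ p ∈ g i, 0 < MvPolynomial.eval z p

lemma toBi_eval' (f : MvPolynomial (Fin 2) ℝ) (x y : ℝ) :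
    (toBi f).evalEval x y = MvPolynomial.eval ![x, y] f := by
  have := toBi_eval f ![x, y]
  simpa using this

theorem side {k : ℕ} (f : Fin k → MvPolynomial (Fin 2) ℝ)
    (g : Fin k → Finset (MvPolynomial (Fin 2) ℝ)) (r : ℝ) (hr : 0 < r)
    (hsv : ∀ x y₁ y₂ i j, 0 < x → x < r → |y₁| < r → |y₂| < r → InP f g i ![x, y₁] →
      InP f g j ![x, y₂] → y₁ = y₂)
    (hsm : ∀ c > 0, ∃ δ > 0, ∀ x y i, 0 < x → x < δ → |y| < δ → InP f g i ![x, y] →
      |y| ≤ c * x ^ 2) :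
    ∃ ε > 0, ∃ h h' : ℝ → ℝ, (∀ x ≤ 0, h x = 0) ∧ (∀ x ≤ 0, h' x = 0) ∧
      ContDiffOn ℝ 4 h (Iio ε) ∧ (∀ x < ε, HasDerivAt h (h' x) x) ∧
      (∀ c > 0, ∃ δ > 0, ∀ x, 0 < x → x < δ → |h' x| ≤ c * x ^ 3) ∧
      ∀ x y i, 0 < x → x < ε → |y| < ε → InP f g i ![x, y] → x ^ 2 * y = h x := by
  obtain ⟨δ₁, hδ₁, h1⟩ := hsm 1 one_pos
  set r' := min r (min δ₁ 1) with hr'
  have hr'0 : 0 < r' := lt_min hr (lt_min hδ₁ one_pos)
  have hr'r : r' ≤ r := min_le_left _ _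
  have hr'δ : r' ≤ δ₁ := (min_le_right _ _).trans (min_le_left _ _)
  have hr'1 : r' ≤ 1 := (min_le_right _ _).trans (min_le_right _ _)
  have hpiece : ∀ i x y, Piece (fun i => toBi (f i)) (fun i => toBi '' (g i : Set _)) i x y ↔
      InP f g i ![x, y] := by
    intro i x y
    unfold Piece InP
    rw [toBi_eval']
    constructor
    · rintro ⟨ha, hb⟩
      refine ⟨ha, fun p hp => ?_⟩
      have := hb (toBi p) ⟨p, hp, rfl⟩
      rwa [toBi_eval'] at this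
    · rintro ⟨ha, hb⟩
      refine ⟨ha, ?_⟩
      rintro _ ⟨p, hp, rfl⟩
      rw [toBi_eval']
      exact hb p hp
  have hsmall : ∀ x y i, 0 < x → x < r' → |y| < r' → InP f g i ![x, y] → |y| ≤ x := by
    intro x y i hx0 hxr hy hp
    have := h1 x y i hx0 (by linarith) (by linarith) hp
    nlinarith
  obtain ⟨ε, hε, h, h', a1, a2, a3, a4, a5, a6⟩ := one_side (fun i => toBi (f i))
    (fun i => toBi '' (g i : Set _)) (fun i => (Finset.finite_toSet _).image _) r' hr'0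
    (fun x y₁ y₂ i j hx0 hxr hy1 hy2 hp1 hp2 => hsv x y₁ y₂ i j hx0 (by linarith) (by linarith)
      (by linarith) ((hpiece i x y₁).1 hp1) ((hpiece j x y₂).1 hp2))
    (fun x y i hx0 hxr hy hp => hsmall x y i hx0 hxr hy ((hpiece i x y).1 hp))
    (by
      intro c hc
      obtain ⟨δ, hδ, h2⟩ := hsm c hc
      refine ⟨min δ r', lt_min hδ hr'0, fun x y i hx0 hxδ hy hp => ?_⟩
      have hp' := (hpiece i x y).1 hp
      have hxr : x < r' := lt_of_lt_of_le hxδ (min_le_right _ _)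
      have hxd : x < δ := lt_of_lt_of_le hxδ (min_le_left _ _)
      have hyx := hsmall x y i hx0 hxr hy hp'
      exact h2 x y i hx0 hxd (by linarith) hp')
  refine ⟨min ε r', lt_min hε hr'0, h, h', a1, a2, a3.mono (Iio_subset_Iio (min_le_left _ _)),
    fun x hx => a4 x (lt_of_lt_of_le hx (min_le_left _ _)), a5, ?_⟩
  intro x y i hx0 hxε hy hp
  exact a6 x y i hx0 (lt_of_lt_of_le hxε (min_le_left _ _))
    (lt_of_lt_of_le hy (min_le_right _ _)) ((hpiece i x y).2 hp)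

/-- reflection in the first variable -/
noncomputable def refl (p : MvPolynomial (Fin 2) ℝ) : MvPolynomial (Fin 2) ℝ :=
  MvPolynomial.aeval ![-MvPolynomial.X 0, MvPolynomial.X 1] p

lemma eval_refl (p : MvPolynomial (Fin 2) ℝ) (x y : ℝ) :
    MvPolynomial.eval ![x, y] (refl p) = MvPolynomial.eval ![-x, y] p := by
  have h : ((MvPolynomial.eval ![x, y]).comp
      (MvPolynomial.aeval (R := ℝ) ![-MvPolynomial.X 0, MvPolynomial.X 1] :
        MvPolynomial (Fin 2) ℝ →ₐ[ℝ] MvPolynomial (Fin 2) ℝ).toRingHom) =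
      MvPolynomial.eval ![-x, y] := by
    apply MvPolynomial.ringHom_ext
    · intro r
      simp
    · intro i
      fin_cases i <;> simp
  have := congrArg (fun g => g p) h
  simpa [refl] using this

lemma InP_refl {k : ℕ} (f : Fin k → MvPolynomial (Fin 2) ℝ)
    (g : Fin k → Finset (MvPolynomial (Fin 2) ℝ)) [DecidableEq (MvPolynomial (Fin 2) ℝ)]
    (i : Fin k) (x y : ℝ) :
    InP (fun i => refl (f i)) (fun i => (g i).image refl) i ![x, y] ↔ InP f g i ![-x, y] := by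
  unfold InP
  simp only [eval_refl, Finset.forall_mem_image]

/-- the functions `F₁`, `F₂` -/
noncomputable def F1 (z : Fin 2 → ℝ) : ℝ := z 0 ^ 3 * z 1 - w (z 0)
noncomputable def F2 (z : Fin 2 → ℝ) : ℝ := z 1 ^ 2 - w (z 0)

/-- the closed set `E` -/
def E0 : Set (Fin 2 → ℝ) := {z | F1 z = 0 ∧ F2 z = 0}

lemma contDiff_w0 : ContDiff ℝ (4:ℕ) (fun z : Fin 2 → ℝ => w (z 0)) := by
  have h : ContDiff ℝ (4:ℕ) w := by exact_mod_cast w_contDiff
  exact h.comp (contDiff_apply ℝ ℝ (0 : Fin 2))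

lemma F1_contDiff : ContDiff ℝ (4:ℕ) F1 := by
  unfold F1
  have h0 : ContDiff ℝ (4:ℕ) (fun z : Fin 2 → ℝ => z 0) := contDiff_apply ℝ ℝ (0 : Fin 2)
  have h1 : ContDiff ℝ (4:ℕ) (fun z : Fin 2 → ℝ => z 1) := contDiff_apply ℝ ℝ (1 : Fin 2)
  exact ((h0.pow 3).mul h1).sub contDiff_w0

lemma F2_contDiff : ContDiff ℝ (4:ℕ) F2 := by
  unfold F2
  have h1 : ContDiff ℝ (4:ℕ) (fun z : Fin 2 → ℝ => z 1) := contDiff_apply ℝ ℝ (1 : Fin 2)
  exact (h1.pow 2).sub contDiff_w0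

lemma jets_sub {F G : (Fin 2 → ℝ) → ℝ} (hF : ContDiff ℝ (4:ℕ) F) (hG : ContDiff ℝ (4:ℕ) G)
    (hj : ∀ j : ℕ, j ≤ 4 → iteratedFDeriv ℝ j G 0 = iteratedFDeriv ℝ j F 0) :
    ∀ j ≤ 4, iteratedFDeriv ℝ j (G - F) 0 = 0 := by
  intro j hj4
  have hle : ((j : ℕ) : WithTop ℕ∞) ≤ ((4:ℕ) : WithTop ℕ∞) := by exact_mod_cast hj4
  rw [iteratedFDeriv_sub_apply (hG.of_le hle).contDiffAt (hF.of_le hle).contDiffAt, hj j hj4,
    sub_self]

lemma abs_le_norm0 (z : Fin 2 → ℝ) : |z 0| ≤ ‖z‖ := norm_le_pi_norm z 0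
lemma abs_le_norm1 (z : Fin 2 → ℝ) : |z 1| ≤ ‖z‖ := norm_le_pi_norm z 1

lemma norm_pow_le (z : Fin 2 → ℝ) (n : ℕ) : ‖z‖ ^ n ≤ |z 0| ^ n + |z 1| ^ n := by
  have h : ‖z‖ = |z 0| ∨ ‖z‖ = |z 1| := by
    have h1 : ‖z‖ ≤ max |z 0| |z 1| := by
      rw [pi_norm_le_iff_of_nonneg (le_max_of_le_left (abs_nonneg _))]
      intro i
      fin_cases i
      · exact le_max_left _ _
      · exact le_max_right _ _
    rcases le_total |z 0| |z 1| with hle | hle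
    · right
      rw [max_eq_right hle] at h1
      exact le_antisymm h1 (abs_le_norm1 z)
    · left
      rw [max_eq_left hle] at h1
      exact le_antisymm h1 (abs_le_norm0 z)
  rcases h with h | h
  · rw [h]; linarith [pow_nonneg (abs_nonneg (z 1)) n]
  · rw [h]; linarith [pow_nonneg (abs_nonneg (z 0)) n]

lemma small_V {V : Set (Fin 2 → ℝ)} {G : (Fin 2 → ℝ) → ℝ} (hG : ContDiff ℝ (4:ℕ) G)
    (hV : ∀ z ∈ V, G z = 0)
    (hj : ∀ j : ℕ, j ≤ 4 → iteratedFDeriv ℝ j G 0 = iteratedFDeriv ℝ j F2 0) :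
    ∀ c > 0, ∃ δ > 0, ∀ z ∈ V, ‖z‖ < δ → |z 1| ≤ c * (z 0) ^ 2 := by
  intro c hc
  set c' := min (1 / 4) (c ^ 2 / 4) with hc'
  have hc'0 : 0 < c' := lt_min (by norm_num) (by positivity)
  have hc'1 : c' ≤ 1 / 4 := min_le_left _ _
  have hc'2 : c' ≤ c ^ 2 / 4 := min_le_right _ _
  obtain ⟨δ, hδ, h⟩ := jet_small 4 (G - F2) (hG.sub F2_contDiff) (jets_sub F2_contDiff hG hj) c' hc'0
  refine ⟨min δ c', lt_min hδ hc'0, fun z hz hzδ => ?_⟩
  have hz1 : ‖z‖ < δ := lt_of_lt_of_le hzδ (min_le_left _ _)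
  have hz2 : ‖z‖ < c' := lt_of_lt_of_le hzδ (min_le_right _ _)
  have h1 := h z hz1
  rw [Pi.sub_apply, hV z hz, zero_sub, norm_neg, Real.norm_eq_abs] at h1
  unfold F2 at h1
  have h2 := w_bound (z 0)
  have h3 := norm_pow_le z 4
  have ha := abs_le_norm0 z
  have hb := abs_le_norm1 z
  set a := |z 0| with haa
  set b := |z 1| with hbb
  have ha0 : 0 ≤ a := abs_nonneg _
  have hb0 : 0 ≤ b := abs_nonneg _
  have hz0 : z 0 ^ 2 = a ^ 2 := (sq_abs _).symm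
  have hz1' : z 1 ^ 2 = b ^ 2 := (sq_abs _).symm
  rw [hz1'] at h1
  rw [hz0]
  have h4 : b ^ 2 ≤ a ^ 5 + c' * (a ^ 4 + b ^ 4) := by
    have h5 := (abs_le.1 h1).2
    have h6 := (abs_le.1 h2).2
    have h7 : c' * ‖z‖ ^ 4 ≤ c' * (a ^ 4 + b ^ 4) := mul_le_mul_of_nonneg_left h3 hc'0.le
    linarith
  have ha5 : a ^ 5 ≤ c' * a ^ 4 := by
    have : a ≤ c' := by linarith
    calc a ^ 5 = a * a ^ 4 := by ring
      _ ≤ c' * a ^ 4 := mul_le_mul_of_nonneg_right this (by positivity)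
  have hb4 : b ^ 4 ≤ b ^ 2 := by
    have : b ^ 2 ≤ 1 := pow_le_one₀ hb0 (by linarith)
    calc b ^ 4 = b ^ 2 * b ^ 2 := by ring
      _ ≤ 1 * b ^ 2 := mul_le_mul_of_nonneg_right this (by positivity)
      _ = b ^ 2 := one_mul _
  have h8 : b ^ 2 ≤ (c * a ^ 2) ^ 2 := by
    have h9 : c' * b ^ 4 ≤ 1 / 4 * b ^ 2 := mul_le_mul hc'1 hb4 (by positivity) (by norm_num)
    have h10 : b ^ 2 * (3 / 4) ≤ 2 * c' * a ^ 4 := by nlinarith
    have h11 : c' * a ^ 4 ≤ c ^ 2 / 4 * a ^ 4 := mul_le_mul_of_nonneg_right hc'2 (by positivity)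
    nlinarith [mul_nonneg hc'0.le (by positivity : 0 ≤ a ^ 4), (by positivity : 0 ≤ c ^ 2 * a ^ 4)]
  exact le_of_sq_le_sq h8 (by positivity)
where
  le_of_sq_le_sq {a b : ℝ} (h : a ^ 2 ≤ b ^ 2) (hb : 0 ≤ b) : a ≤ b :=
    abs_le_of_sq_le_sq' h hb |>.2

lemma hasDerivAt_line (x y : ℝ) : HasDerivAt (fun y : ℝ => (![x, y] : Fin 2 → ℝ)) ![0, 1] y := by
  rw [hasDerivAt_pi]
  intro i
  fin_cases i
  · exact hasDerivAt_const y x
  · exact hasDerivAt_id' y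

lemma norm_vec (x y : ℝ) : ‖(![x, y] : Fin 2 → ℝ)‖ = max |x| |y| := by
  apply le_antisymm
  · rw [pi_norm_le_iff_of_nonneg (le_max_of_le_left (abs_nonneg _))]
    intro i
    fin_cases i
    · exact le_max_left _ _
    · exact le_max_right _ _
  · apply max_le
    · exact abs_le_norm0 ![x, y]
    · exact abs_le_norm1 ![x, y]

lemma single_V {V : Set (Fin 2 → ℝ)} {G : (Fin 2 → ℝ) → ℝ} (hG : ContDiff ℝ (4:ℕ) G)
    (hV : ∀ z ∈ V, G z = 0)
    (hj : ∀ j : ℕ, j ≤ 4 → iteratedFDeriv ℝ j G 0 = iteratedFDeriv ℝ j F1 0)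
    (hsmall : ∀ c > 0, ∃ δ > 0, ∀ z ∈ V, ‖z‖ < δ → |z 1| ≤ c * (z 0) ^ 2) :
    ∃ r > 0, ∀ x y₁ y₂ : ℝ, x ≠ 0 → |x| < r → |y₁| < r → |y₂| < r → ![x, y₁] ∈ V →
      ![x, y₂] ∈ V → y₁ = y₂ := by
  obtain ⟨δ, hδ, h⟩ := jet_small_fderiv 3 (G - F1) (hG.sub F1_contDiff)
    (jets_sub F1_contDiff hG hj) (1 / 2) (by norm_num)
  obtain ⟨δ', hδ', h'⟩ := hsmall 1 one_pos
  set r := min δ (min δ' 1) with hr
  have hr0 : 0 < r := lt_min hδ (lt_min hδ' one_pos)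
  have hrδ : r ≤ δ := min_le_left _ _
  have hrδ' : r ≤ δ' := (min_le_right _ _).trans (min_le_left _ _)
  have hr1 : r ≤ 1 := (min_le_right _ _).trans (min_le_right _ _)
  have hR : Differentiable ℝ (G - F1) :=
    (hG.sub F1_contDiff).differentiable (by norm_num)
  have key : ∀ x y₁ y₂ : ℝ, x ≠ 0 → |x| < r → |y₁| < r → |y₂| < r → ![x, y₁] ∈ V →
      ![x, y₂] ∈ V → ¬ y₁ < y₂ := by
    intro x y₁ y₂ hx hxr hy1 hy2 hv1 hv2 hlt
    have hb1 := h' _ hv1 (by rw [norm_vec]; exact lt_of_lt_of_le (max_lt hxr hy1) hrδ')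
    have hb2 := h' _ hv2 (by rw [norm_vec]; exact lt_of_lt_of_le (max_lt hxr hy2) hrδ')
    simp only [Matrix.cons_val_zero, Matrix.cons_val_one, one_mul] at hb1 hb2
    have hxx : x ^ 2 ≤ |x| := by
      rw [← sq_abs]
      have : |x| < 1 := by linarith
      nlinarith [abs_nonneg x]
    set q : ℝ → ℝ := fun y => G ![x, y] with hq
    have hder : ∀ y, HasDerivAt q (x ^ 3 + fderiv ℝ (G - F1) ![x, y] ![0, 1]) y := by
      intro y
      have e1 : HasDerivAt (fun y => (G - F1) ![x, y]) (fderiv ℝ (G - F1) ![x, y] ![0, 1]) y :=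
        (hR ![x, y]).hasFDerivAt.comp_hasDerivAt y (hasDerivAt_line x y)
      have e2 : HasDerivAt (fun y : ℝ => x ^ 3 * y - w x) (x ^ 3) y := by
        have := ((hasDerivAt_id y).const_mul (x ^ 3)).sub_const (w x)
        simpa using this
      have e3 := e2.add e1
      refine e3.congr_of_eventuallyEq ?_
      apply Filter.Eventually.of_forall
      intro y
      simp [hq, F1]
    obtain ⟨ξ, hξ, hξ0⟩ := exists_hasDerivAt_eq_zero (f := q)
      (f' := fun y => x ^ 3 + fderiv ℝ (G - F1) ![x, y] ![0, 1]) hlt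
      (fun y _ => (hder y).continuousAt.continuousWithinAt)
      (by simp only [hq]; rw [hV _ hv1, hV _ hv2]) (fun y _ => hder y)
    have hξx : |ξ| ≤ |x| := by
      rw [abs_le] at hb1 hb2 ⊢
      constructor <;> linarith [hξ.1, hξ.2]
    have hnorm : ‖(![x, ξ] : Fin 2 → ℝ)‖ = |x| := by rw [norm_vec, max_eq_left hξx]
    have hbd := h ![x, ξ] (by rw [hnorm]; linarith)
    rw [hnorm] at hbd
    have hone : ‖(![0, 1] : Fin 2 → ℝ)‖ = 1 := by rw [norm_vec]; simp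
    have hbd2 : |fderiv ℝ (G - F1) ![x, ξ] ![0, 1]| ≤ 1 / 2 * |x| ^ 3 := by
      have := (fderiv ℝ (G - F1) ![x, ξ]).le_opNorm ![0, 1]
      rw [hone, mul_one, Real.norm_eq_abs] at this
      exact this.trans hbd
    have heq : x ^ 3 = - fderiv ℝ (G - F1) ![x, ξ] ![0, 1] := by linarith
    have hx3 : |x| ^ 3 ≤ 1 / 2 * |x| ^ 3 := by
      calc |x| ^ 3 = |x ^ 3| := (abs_pow x 3).symm
        _ = |fderiv ℝ (G - F1) ![x, ξ] ![0, 1]| := by rw [heq, abs_neg]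
        _ ≤ 1 / 2 * |x| ^ 3 := hbd2
    have : 0 < |x| ^ 3 := by positivity
    linarith
  refine ⟨r, hr0, fun x y₁ y₂ hx hxr hy1 hy2 hv1 hv2 => ?_⟩
  rcases lt_trichotomy y₁ y₂ with hlt | heq | hlt
  · exact absurd hlt (key x y₁ y₂ hx hxr hy1 hy2 hv1 hv2)
  · exact heq
  · exact absurd hlt (key x y₂ y₁ hx hxr hy2 hy1 hv2 hv1)

end Pool.Agent.W777.SA
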